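import Mathlib

/-!
# Langlands Euler products on the edge of absolute convergence: definitions

`G` is a group (for example the `L`-group `GSpin_{2n+1}(ℂ)` of `GSp_{2n}`), `ρ : G → GL_d(ℂ)` a
representation, `S` a finite set of primes and `A_p ∈ G` for the primes `p` (for example an element
of the Satake class of `π_p` for `p ∉ S`).
-/

set_option autoImplicit false

namespace Pool.Agent.N903.LG

/-- The value `χ_ρ(g)` of the character of `ρ`. -/
noncomputable def character {G : Type*} [Group G] {d : ℕ}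
    (ρ : G →* Matrix.GeneralLinearGroup (Fin d) ℂ) (g : G) : ℂ :=
  (ρ g : Matrix (Fin d) (Fin d) ℂ).trace

open Classical in
/-- The factor `det (1 - ρ(A_p) p^{-s})⁻¹` at the prime `p`, and `1` if `p ∈ S`. -/
noncomputable def factor {G : Type*} [Group G] {d : ℕ}
    (ρ : G →* Matrix.GeneralLinearGroup (Fin d) ℂ) (S : Finset Nat.Primes) (A : Nat.Primes → G)
    (s : ℂ) (p : Nat.Primes) : ℂ :=
  if p ∈ S then 1 else
    ((1 - ((p : ℕ) : ℂ) ^ (-s) • (ρ (A p) : Matrix (Fin d) (Fin d) ℂ)).det)⁻¹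

/-- The logarithm `∑_{m ≥ 1} χ_ρ(g^m) y^m / m` of `det (1 - y ρ(g))⁻¹`, for small `y`. -/
noncomputable def logFactor {G : Type*} [Group G] {d : ℕ}
    (ρ : G →* Matrix.GeneralLinearGroup (Fin d) ℂ) (g : G) (y : ℂ) : ℂ :=
  ∑' m : ℕ, character ρ (g ^ (m + 1)) * y ^ (m + 1) / (m + 1)

open Classical in
/-- The logarithm `log L_S(s) = ∑_{p ∉ S} ∑_{m ≥ 1} χ_ρ(A_p^m) p^{-ms} / m` of the Euler product
`L_S(s) = ∏_{p ∉ S} det (1 - ρ(A_p) p^{-s})⁻¹`. -/
noncomputable def logL {G : Type*} [Group G] {d : ℕ}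
    (ρ : G →* Matrix.GeneralLinearGroup (Fin d) ℂ) (S : Finset Nat.Primes) (A : Nat.Primes → G)
    (s : ℂ) : ℂ :=
  ∑' p : Nat.Primes, if p ∈ S then 0 else logFactor ρ (A p) (((p : ℕ) : ℂ) ^ (-s))

/-- The eigenvalues of `ρ(A_p)`, `p ∉ S`, are at most `p^k` in absolute value. -/
def EigenvaluesAtMost {G : Type*} [Group G] {d : ℕ}
    (ρ : G →* Matrix.GeneralLinearGroup (Fin d) ℂ) (S : Finset Nat.Primes) (A : Nat.Primes → G)
    (k : ℝ) : Prop :=
  ∀ p : Nat.Primes, p ∉ S → ∀ l : ℂ, (ρ (A p) : Matrix (Fin d) (Fin d) ℂ).charpoly.IsRoot l →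
    ‖l‖ ≤ ((p : ℕ) : ℝ) ^ k

/-- The point `e + iτ` of the edge `Re s = e`. -/
noncomputable def edgePoint (e τ : ℝ) : ℂ := (e : ℂ) + (τ : ℂ) * Complex.I

/-- The angle `|s - s_τ| ≤ C (Re s - e)` at `s_τ = e + iτ` in the half-plane `Re s > e`. -/
def angle (e τ C : ℝ) : Set ℂ := {s : ℂ | e < s.re ∧ ‖s - edgePoint e τ‖ ≤ C * (s.re - e)}

open Classical in
/-- The random local factor: the mean over the circle of
`exp (i Re ∑_j conj t_j log L_{j,p})`, where `p^{-s}` at the point `s = 1 + k_j + i h_j` is multiplied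
with `e^{iθ}` and `log L_{j,p} = 0` for `p ∈ S_j`. -/
noncomputable def randomFactor {n : ℕ} {G : Fin n → Type} [∀ j, Group (G j)] {d : Fin n → ℕ}
    (ρ : ∀ j, G j →* Matrix.GeneralLinearGroup (Fin (d j)) ℂ) (S : Fin n → Finset Nat.Primes)
    (A : ∀ j, Nat.Primes → G j) (k h : Fin n → ℝ) (t : EuclideanSpace ℂ (Fin n))
    (p : Nat.Primes) : ℂ :=
  (2 * Real.pi)⁻¹ * ∫ θ in (0 : ℝ)..(2 * Real.pi), Complex.exp (Complex.I *
    ((∑ j, (starRingEnd ℂ) (t j) * (if p ∈ S j then 0 else logFactor (ρ j) (A j p)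
      (((p : ℕ) : ℂ) ^ (-edgePoint (1 + k j) (h j)) * Complex.exp (θ * Complex.I)))).re : ℝ))

open Classical in
/-- The Euler products are *independent*: for no `u ≠ 0` in `ℂⁿ` does the relation
`∑_j u_j χ_j(A_{j,p}^m) p^{-m (k_j + i h_j)} = 0` (sum over the `j` with `p ∉ S_j`) hold for all `m ≥ 1`
and all large primes `p`. -/
def Independent {n : ℕ} {G : Fin n → Type} [∀ j, Group (G j)] {d : Fin n → ℕ}
    (ρ : ∀ j, G j →* Matrix.GeneralLinearGroup (Fin (d j)) ℂ) (S : Fin n → Finset Nat.Primes)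
    (A : ∀ j, Nat.Primes → G j) (k h : Fin n → ℝ) : Prop :=
  ∀ u : Fin n → ℂ, u ≠ 0 → ∀ x : ℕ, ∃ p : Nat.Primes, x ≤ p ∧ ∃ m : ℕ, 1 ≤ m ∧
    ∑ j, u j * (if p ∈ S j then 0 else character (ρ j) (A j p ^ m)) *
      ((p : ℕ) : ℂ) ^ (-(m * edgePoint (k j) (h j))) ≠ 0

end Pool.Agent.N903.LG
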