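import Pool.Agent.N903.EV.Joint

/-!
# The local factors of a general Euler product
-/

set_option autoImplicit false
set_option linter.unusedSectionVars false

namespace Pool.Agent.N903.LG

open Finset Filter Topology MeasureTheory Pool.Agent.W350.Edge Pool.Agent.N903.ED
  Pool.Agent.N903.EL Pool.Agent.N903.EV
open scoped ComplexConjugate

section
variable {d : ℕ} (β : Fin d → ℂ) (p : ℕ)

/-- The logarithm of the local factor. -/
noncomputable def LF (x : ℂ) : ℂ := ∑ i, -Complex.log (1 - β i / p * x)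

/-- The part of order two and more. -/
noncomputable def RF (x : ℂ) : ℂ := LF β p x - (∑ i, β i) / p * x

/-- The polynomial of the local factor. -/
noncomputable def PF : Polynomial ℂ := ∏ i, (1 - Polynomial.C (β i / p) * Polynomial.X)

lemma LF_zero : LF β p 0 = 0 := by simp [LF]

lemma PF_eval (x : ℂ) : (PF β p).eval x = ∏ i, (1 - β i / p * x) := by
  unfold PF
  rw [Polynomial.eval_prod]
  simp

lemma PF_zero : (PF β p).coeff 0 = 1 := by
  rw [Polynomial.coeff_zero_eq_eval_zero, PF_eval]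
  simp

lemma natDegree_PF : (PF β p).natDegree ≤ d := by
  unfold PF
  refine (Polynomial.natDegree_prod_le _ _).trans ?_
  calc ∑ i : Fin d, (1 - Polynomial.C (β i / p) * Polynomial.X : Polynomial ℂ).natDegree ≤
        ∑ _i : Fin d, 1 := by
        refine sum_le_sum fun i _ => ?_
        refine (Polynomial.natDegree_sub_le _ _).trans (max_le ?_ ?_)
        · rw [Polynomial.natDegree_one]
          exact Nat.zero_le _
        · refine (Polynomial.natDegree_C_mul_le _ _).trans ?_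
          rw [Polynomial.natDegree_X]
    _ = d := by simp

variable (hp : p.Prime) (hβ : ∀ i, ‖β i‖ ≤ 1)

include hp hβ in
lemma norm_arg (i : Fin d) (x : ℂ) (hx : ‖x‖ ≤ 1) : ‖β i / p * x‖ ≤ 1 / p := by
  have hp0 : (0 : ℝ) < p := by exact_mod_cast hp.pos
  rw [norm_mul, norm_div, Complex.norm_natCast]
  have h1 := hβ i
  calc ‖β i‖ / p * ‖x‖ ≤ 1 / p * 1 := by gcongr
    _ = 1 / p := mul_one _

include hp in
lemma inv_le : 1 / (p : ℝ) ≤ 1 / 2 := by
  have h2 : (2 : ℝ) ≤ p := by exact_mod_cast hp.two_le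
  exact one_div_le_one_div_of_le (by norm_num) h2

include hp hβ in
lemma slit (i : Fin d) (x : ℂ) (hx : ‖x‖ ≤ 1) : 1 - β i / p * x ∈ Complex.slitPlane := by
  have h1 := (norm_arg β p hp hβ i x hx).trans (inv_le p hp)
  left
  have h2 := Complex.re_le_norm (β i / p * x)
  rw [Complex.sub_re, Complex.one_re]
  linarith

include hp hβ in
lemma norm_RF (x : ℂ) (hx : ‖x‖ ≤ 1) : ‖RF β p x‖ ≤ d * (1 / (p : ℝ)) ^ 2 := by
  have h1 : RF β p x = ∑ i, (-Complex.log (1 - β i / p * x) - β i / p * x) := by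
    unfold RF LF
    rw [sum_sub_distrib, sum_div, sum_mul]
  rw [h1]
  have h2 : ∀ i : Fin d, ‖-Complex.log (1 - β i / p * x) - β i / p * x‖ ≤ (1 / (p : ℝ)) ^ 2 := by
    intro i
    have h3 := norm_arg β p hp hβ i x hx
    have h4 := inv_le p hp
    set w := β i / p * x with hw
    have hw1 : ‖-w‖ < 1 := by rw [norm_neg]; linarith
    have h5 := Complex.norm_log_one_add_sub_self_le hw1
    rw [norm_neg] at h5
    have h6 : -Complex.log (1 - w) - w = -(Complex.log (1 + -w) - -w) := by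
      rw [← sub_eq_add_neg]
      ring
    rw [h6, norm_neg]
    refine h5.trans ?_
    have h7 : (1 - ‖w‖)⁻¹ ≤ 2 := by
      rw [inv_le_comm₀ (by linarith) (by norm_num)]
      linarith
    have h8 : 0 ≤ ‖w‖ := norm_nonneg w
    calc ‖w‖ ^ 2 * (1 - ‖w‖)⁻¹ / 2 ≤ ‖w‖ ^ 2 * 2 / 2 := by gcongr
      _ = ‖w‖ ^ 2 := by ring
      _ ≤ _ := pow_le_pow_left₀ h8 h3 2
  calc ‖∑ i, (-Complex.log (1 - β i / p * x) - β i / p * x)‖ ≤
        ∑ _i : Fin d, (1 / (p : ℝ)) ^ 2 := norm_sum_le_of_le _ fun i _ => h2 i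
    _ = _ := by simp

include hp hβ in
lemma hasDerivAt_LFc (x : ℂ) (hx : ‖x‖ ≤ 1) :
    HasDerivAt (LF β p) (∑ i, β i / p / (1 - β i / p * x)) x := by
  unfold LF
  refine HasDerivAt.fun_sum fun i _ => ?_
  have h1 : HasDerivAt (fun x : ℂ => 1 - β i / p * x) (-(β i / p)) x := by
    simpa using ((hasDerivAt_id x).const_mul (β i / p)).const_sub 1
  have h2 := (h1.clog (slit β p hp hβ i x hx)).neg
  refine h2.congr_deriv ?_
  rw [neg_div, neg_neg]

include hp hβ in
lemma continuousOn_LF : ContinuousOn (LF β p) (Metric.closedBall 0 1) := fun x hx =>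
  (hasDerivAt_LFc β p hp hβ x (by rwa [mem_closedBall_zero_iff] at hx)).continuousAt.continuousWithinAt

include hp hβ in
lemma diffContOnCl_LF (η : ℂ) (hη : ‖η‖ = 1) :
    DiffContOnCl ℂ (fun x => LF β p (η * x)) (Metric.ball 0 1) := by
  have h1 : ∀ x : ℂ, ‖x‖ ≤ 1 → DifferentiableAt ℂ (fun x => LF β p (η * x)) x := by
    intro x hx
    have h2 := (hasDerivAt_LFc β p hp hβ (η * x) (by rw [norm_mul, hη, one_mul]; exact hx))
    exact (h2.differentiableAt).comp x (by fun_prop)
  constructor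
  · intro x hx
    rw [mem_ball_zero_iff] at hx
    exact (h1 x hx.le).differentiableWithinAt
  · rw [closure_ball (0 : ℂ) one_ne_zero]
    intro x hx
    rw [mem_closedBall_zero_iff] at hx
    exact (h1 x hx).continuousAt.continuousWithinAt

include hp hβ in
lemma PF_ne (x : ℂ) (hx : ‖x‖ ≤ 1) (i : Fin d) :
    (1 - Polynomial.C (β i / p) * Polynomial.X : Polynomial ℂ).eval x ≠ 0 := by
  have h1 : (1 - Polynomial.C (β i / p) * Polynomial.X : Polynomial ℂ).eval x =
      1 - β i / p * x := by simp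
  rw [h1]
  exact Complex.slitPlane_ne_zero (slit β p hp hβ i x hx)

include hp hβ in
/-- The derivative along the circle. -/
lemma hasDerivAt_LF (ω : ℂ) (hω : ‖ω‖ = 1) (θ : ℝ) :
    HasDerivAt (fun θ => LF β p (ω * ee 1 θ)) (Complex.I * EL.GG (PF β p) (ω * ee 1 θ)) θ := by
  have hx : ‖ω * ee 1 θ‖ ≤ 1 := by rw [norm_mul, hω, norm_ee, one_mul]
  have h1 := (hasDerivAt_LFc β p hp hβ _ hx).comp θ ((hasDerivAt_ee 1 θ).const_mul ω)
  refine h1.congr_deriv ?_
  unfold PF
  rw [GG_prod _ _ _ fun i _ => PF_ne β p hp hβ _ hx i, mul_sum, sum_mul]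
  refine sum_congr rfl fun i _ => ?_
  have h3 := Complex.slitPlane_ne_zero (slit β p hp hβ i _ hx)
  unfold EL.GG
  simp only [Polynomial.derivative_sub, Polynomial.derivative_one, Polynomial.derivative_C_mul,
    Polynomial.derivative_X, mul_one, zero_sub, Polynomial.eval_neg, Polynomial.eval_C,
    Polynomial.eval_sub, Polynomial.eval_one, Polynomial.eval_mul, Polynomial.eval_X]
  push_cast
  field_simp

include hβ in
lemma Dom_PF (i : Fin d) : Dom (1 - Polynomial.C (β i / p) * Polynomial.X)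
    (1 + Polynomial.C (1 / (p : ℝ)) * Polynomial.X) := by
  intro k
  rw [Polynomial.coeff_sub, Polynomial.coeff_add, Polynomial.coeff_C_mul, Polynomial.coeff_C_mul,
    Polynomial.coeff_X, Polynomial.coeff_X]
  refine (norm_sub_le _ _).trans (add_le_add (Dom.one k) ?_)
  split_ifs
  · rw [mul_one, mul_one, norm_div, Complex.norm_natCast]
    exact div_le_div_of_nonneg_right (hβ i) (Nat.cast_nonneg _)
  · simp

include hβ in
lemma PF_small (m : ℕ) (h3 : (1 + 3 / (p : ℝ)) ^ d ≤ 3 / 2) :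
    ∑ k ∈ Icc 1 m, ‖(PF β p).coeff k‖ ≤ 1 / 2 := by
  have h1 : Dom (PF β p) (∏ _i : Fin d, (1 + Polynomial.C (1 / (p : ℝ)) * Polynomial.X)) :=
    Dom.prod _ _ _ fun i _ => Dom_PF β p hβ i
  refine (h1.sum_le m).trans ?_
  have h4 : (∏ _i : Fin d, (1 + Polynomial.C (1 / (p : ℝ)) * Polynomial.X)).coeff 0 = 1 := by
    rw [Polynomial.coeff_zero_eq_eval_zero, Polynomial.eval_prod]
    simp
  have h5 : (∏ _i : Fin d, (1 + Polynomial.C (1 / (p : ℝ)) * Polynomial.X)).eval 1 =
      (1 + 1 / (p : ℝ)) ^ d := by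
    rw [Polynomial.eval_prod]
    simp
  have h6 : (1 + 1 / (p : ℝ)) ^ d ≤ (1 + 3 / (p : ℝ)) ^ d := by
    refine pow_le_pow_left₀ (by positivity) ?_ d
    gcongr
    norm_num
  rw [h4, h5]
  linarith

lemma PF_deg (i : Fin d) (hp0 : p ≠ 0) (hi : β i ≠ 0) : 1 ≤ (PF β p).natDegree := by
  have hne : ∀ i ∈ (univ : Finset (Fin d)),
      (1 - Polynomial.C (β i / p) * Polynomial.X : Polynomial ℂ) ≠ 0 := by
    intro i _ h
    have := congrArg (Polynomial.eval 0) h
    simp at this
  unfold PF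
  rw [Polynomial.natDegree_prod _ _ hne]
  have h1 : 1 ≤ (1 - Polynomial.C (β i / p) * Polynomial.X : Polynomial ℂ).natDegree := by
    refine Polynomial.le_natDegree_of_ne_zero ?_
    rw [Polynomial.coeff_sub, Polynomial.coeff_one, Polynomial.coeff_C_mul, Polynomial.coeff_X]
    simpa using ⟨hi, hp0⟩
  exact h1.trans (single_le_sum (f := fun i =>
    (1 - Polynomial.C (β i / p) * Polynomial.X : Polynomial ℂ).natDegree)
    (fun _ _ => Nat.zero_le _) (mem_univ i))

end

end Pool.Agent.N903.LG
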