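import Pool.Agent.N903.LG.Mat
import Pool.Agent.N903.EV.Final

/-!
# The joint law of Langlands Euler products on the edge
-/

set_option autoImplicit false
set_option linter.unusedSectionVars false

namespace Pool.Agent.N903.LG

open Finset Filter Topology MeasureTheory Pool.Agent.N903.EL Pool.Agent.N903.EV
open scoped ComplexConjugate ContDiff BoundedContinuousFunction

section
variable {n : ℕ} {G : Fin n → Type} [∀ j, Group (G j)] {d : Fin n → ℕ}
  (ρ : ∀ j, G j →* Matrix.GeneralLinearGroup (Fin (d j)) ℂ) (S : Fin n → Finset Nat.Primes)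
  (A : ∀ j, Nat.Primes → G j) (k h : Fin n → ℝ)
  (hk : ∀ j, EigenvaluesAtMost (ρ j) (S j) (A j) (k j))

include hk in
/-- **The joint law.** -/
theorem joint_law :
    (∀ j, ∀ s : ℂ, 1 + k j < s.re →
      HasProd (factor (ρ j) (S j) (A j) s) (Complex.exp (logL (ρ j) (S j) (A j) s))) ∧
    ∃ N : Set ℝ, dimH N = 0 ∧ ∃ lam : ℝ → EuclideanSpace ℂ (Fin n),
      (∀ τ, τ ∉ N → ∀ j, ∀ C : ℝ, Tendsto (logL (ρ j) (S j) (A j))
        (𝓝[angle (1 + k j) (τ + h j) C] (edgePoint (1 + k j) (τ + h j))) (𝓝 (lam τ j))) ∧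
      AEMeasurable lam ∧
      ∃ ν : Measure (EuclideanSpace ℂ (Fin n)), IsProbabilityMeasure ν ∧
        (∀ F : EuclideanSpace ℂ (Fin n) →ᵇ ℝ, ∀ ε : ℝ, 0 < ε → ∃ T₀ : ℝ, ∀ T ≥ T₀, ∀ a : ℝ,
          |T⁻¹ * (∫ τ in a..(a + T), F (lam τ)) - ∫ w, F w ∂ν| ≤ ε) ∧
        (∀ t : EuclideanSpace ℂ (Fin n), HasProd (randomFactor ρ S A k h t)
          (∫ w, Complex.exp (Complex.I * ((∑ j, conj (t j) * w j).re : ℝ)) ∂ν)) ∧
        (∀ C : ℝ, Integrable (fun w => Real.exp (C * ‖w‖)) ν) ∧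
        (Independent ρ S A k h → ∃ g : EuclideanSpace ℂ (Fin n) → ℝ, ContDiff ℝ ∞ g ∧
          (∀ w, 0 ≤ g w) ∧ ν = volume.withDensity fun w => ENNReal.ofReal (g w)) := by
  refine ⟨fun j s hs => hasProd_L ρ S A k hk j s hs, ?_⟩
  have hβ := norm_bs ρ S A k hk
  obtain ⟨ν, h1, h2, h3, h4⟩ := law_abs (bs ρ S A k) h hβ
  refine ⟨NN0 (bs ρ S A k) h, dimH_NN0 _ h hβ, lamv (bs ρ S A k) h, fun τ hτ j C => ?_,
    aem_lamv _ h hβ, (ν : Measure (EE n)), inferInstance, fun F ε hε => ?_, fun t => ?_, h3,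
    fun hI => h4 (ind_of ρ S A k h hI)⟩
  · exact lamv_lim (bs ρ S A k) h hβ τ hτ j (1 + k j) (logL (ρ j) (S j) (A j))
      (fun s hs => logL_eq ρ S A k hk j s hs) C
  · exact window (lamv (bs ρ S A k) h) F _ (h1 F) ε hε
  · have h5 := h2 t
    simp only [lcv_eq ρ S A k h hk] at h5
    have h6 : charFun (ν : Measure (EE n)) t =
        ∫ w, Complex.exp (Complex.I * ((∑ j, conj (t j) * w j).re : ℝ))
          ∂(ν : Measure (EE n)) := by
      rw [charFun_apply]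
      refine integral_congr_ae (Eventually.of_forall fun w => ?_)
      show Complex.exp (((inner ℝ w t : ℝ) : ℂ) * Complex.I) = _
      rw [inner_eq, mul_comm]
    rw [h6] at h5
    exact h5

end

end Pool.Agent.N903.LG
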