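import Pool.Agent.N903.LG.Sys
import Pool.Agent.N903.EV.Mangoldt

/-!
# Independence
-/

set_option autoImplicit false
set_option linter.unusedSectionVars false

namespace Pool.Agent.N903.LG

open Finset Filter Topology MeasureTheory Pool.Agent.W350.Edge Pool.Agent.N903.ED
  Pool.Agent.N903.EL Pool.Agent.N903.EV
open scoped ComplexConjugate

/-- Some power sum does not vanish. -/
lemma exists_pow_sum {d : ℕ} (β : Fin d → ℂ) (i₀ : Fin d) (h0 : β i₀ ≠ 0) :
    ∃ m ∈ Icc 1 d, ∑ i, β i ^ m ≠ 0 := by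
  classical
  by_contra hcon
  push Not at hcon
  set S : Finset ℂ := (univ.image β).erase (β i₀) with hS
  set q : Polynomial ℂ := Polynomial.X * ∏ l ∈ S, (Polynomial.X - Polynomial.C l) with hq
  have hcard : S.card + 1 ≤ d := by
    rw [hS, card_erase_of_mem (mem_image_of_mem β (mem_univ i₀))]
    have h1 : 1 ≤ (univ.image β).card := card_pos.2 ⟨_, mem_image_of_mem β (mem_univ i₀)⟩
    have h2 : (univ.image β).card ≤ (univ : Finset (Fin d)).card := card_image_le
    rw [card_univ, Fintype.card_fin] at h2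
    omega
  have hdeg : q.natDegree ≤ d := by
    rw [hq]
    refine (Polynomial.natDegree_mul_le).trans ?_
    rw [Polynomial.natDegree_X]
    have h1 : (∏ l ∈ S, (Polynomial.X - Polynomial.C l)).natDegree ≤ S.card := by
      refine (Polynomial.natDegree_prod_le _ _).trans ?_
      rw [card_eq_sum_ones]
      exact sum_le_sum fun l _ => (Polynomial.natDegree_X_sub_C l).le
    omega
  have hq0 : q.coeff 0 = 0 := by
    rw [hq, Polynomial.mul_coeff_zero, Polynomial.coeff_X_zero, zero_mul]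
  have hval : ∀ i, q.eval (β i) = if β i = β i₀ then q.eval (β i₀) else 0 := by
    intro i
    split_ifs with h
    · rw [h]
    · have h1 : β i ∈ S := mem_erase.2 ⟨h, mem_image_of_mem β (mem_univ i)⟩
      rw [hq, Polynomial.eval_mul, Polynomial.eval_prod, prod_eq_zero h1 (by simp), mul_zero]
  have hne : q.eval (β i₀) ≠ 0 := by
    rw [hq, Polynomial.eval_mul, Polynomial.eval_X, Polynomial.eval_prod]
    refine mul_ne_zero h0 (prod_ne_zero_iff.2 fun l hl => ?_)
    rw [Polynomial.eval_sub, Polynomial.eval_X, Polynomial.eval_C, sub_ne_zero]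
    exact (mem_erase.1 hl).1.symm
  have h1 : ∑ i, q.eval (β i) = 0 := by
    have h2 : ∀ i, q.eval (β i) = ∑ k ∈ range (d + 1), q.coeff k * β i ^ k := fun i =>
      Polynomial.eval_eq_sum_range' (Nat.lt_succ_of_le hdeg) _
    simp only [h2]
    rw [sum_comm]
    refine sum_eq_zero fun k hk => ?_
    rw [← mul_sum]
    rcases Nat.eq_zero_or_pos k with rfl | hk0
    · rw [hq0, zero_mul]
    · rw [hcon k (mem_Icc.2 ⟨hk0, Nat.lt_succ_iff.1 (mem_range.1 hk)⟩), mul_zero]
  rw [sum_congr rfl fun i _ => hval i] at h1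
  rw [← sum_filter, sum_const, nsmul_eq_mul] at h1
  rcases mul_eq_zero.1 h1 with h2 | h2
  · have h3 : (univ.filter fun i => β i = β i₀).card = 0 := by exact_mod_cast h2
    rw [card_eq_zero] at h3
    have h4 : i₀ ∈ univ.filter fun i => β i = β i₀ := mem_filter.2 ⟨mem_univ _, rfl⟩
    rw [h3] at h4
    exact notMem_empty _ h4
  · exact hne h2

/-- The power series of a local function. -/
lemma hasSum_LF {d : ℕ} (β : Fin d → ℂ) (p : ℕ) (hp : p.Prime) (hβ : ∀ i, ‖β i‖ ≤ 1) (x : ℂ)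
    (hx : ‖x‖ ≤ 1) :
    HasSum (fun m : ℕ => (∑ i, β i ^ (m + 1)) / (m + 1) * (x / p) ^ (m + 1)) (LF β p x) := by
  unfold LF
  have h1 : ∀ i, HasSum (fun m : ℕ => (β i / p * x) ^ (m + 1) / (m + 1))
      (-Complex.log (1 - β i / p * x)) := by
    intro i
    have h2 : ‖β i / p * x‖ < 1 := by
      have := (norm_arg β p hp hβ i x hx).trans (inv_le p hp)
      linarith
    have h3 := Complex.hasSum_taylorSeries_neg_log h2
    have h4 := (hasSum_nat_add_iff' 1).2 h3
    simpa using h4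
  have h2 := hasSum_sum fun i (_ : i ∈ (univ : Finset (Fin d))) => h1 i
  have h3 : (fun m : ℕ => (∑ i, β i ^ (m + 1)) / (m + 1) * (x / p) ^ (m + 1)) =
      fun m : ℕ => ∑ i, (β i / p * x) ^ (m + 1) / (m + 1) := by
    funext m
    rw [sum_div, sum_mul]
    refine sum_congr rfl fun i _ => ?_
    rw [div_mul_eq_mul_div (β i ^ (m + 1)) ((m : ℂ) + 1), ← mul_pow]
    congr 2
    ring
  rw [h3]
  exact h2

lemma norm_term {d : ℕ} (β : Fin d → ℂ) (p : ℕ) (hp : p.Prime) (hβ : ∀ i, ‖β i‖ ≤ 1) (x : ℂ)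
    (hx : ‖x‖ ≤ 1) (m : ℕ) :
    ‖(∑ i, β i ^ (m + 1)) / (m + 1) * (x / p) ^ (m + 1)‖ ≤ d * (1 / 2 : ℝ) ^ m := by
  have hp0 : (0 : ℝ) < p := by exact_mod_cast hp.pos
  have h1 : ‖∑ i, β i ^ (m + 1)‖ ≤ d := by
    calc ‖∑ i, β i ^ (m + 1)‖ ≤ ∑ _i : Fin d, (1 : ℝ) := norm_sum_le_of_le _ fun i _ => by
          rw [norm_pow]
          exact pow_le_one₀ (norm_nonneg _) (hβ i)
      _ = d := by simp
  have h2 : ‖((m : ℂ) + 1)‖ = (m : ℝ) + 1 := by
    have : ((m : ℂ) + 1) = ((m + 1 : ℕ) : ℂ) := by push_cast; ring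
    rw [this, Complex.norm_natCast]
    push_cast
    ring
  have h3 : ‖x / p‖ ≤ 1 / 2 := by
    rw [norm_div, Complex.norm_natCast]
    calc ‖x‖ / p ≤ 1 / p := by gcongr
      _ ≤ 1 / 2 := inv_le p hp
  rw [norm_mul, norm_div, norm_pow, h2]
  have h4 : ‖∑ i, β i ^ (m + 1)‖ / ((m : ℝ) + 1) ≤ d := by
    rw [div_le_iff₀ (by positivity)]
    have : (0 : ℝ) ≤ (d : ℝ) * m := by positivity
    nlinarith
  have h5 : ‖x / p‖ ^ (m + 1) ≤ (1 / 2 : ℝ) ^ m := by
    calc ‖x / p‖ ^ (m + 1) ≤ (1 / 2 : ℝ) ^ (m + 1) := pow_le_pow_left₀ (norm_nonneg _) h3 _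
      _ ≤ (1 / 2 : ℝ) ^ m := by
          rw [pow_succ]
          have : (0 : ℝ) < (1 / 2) ^ m := by positivity
          nlinarith
  exact mul_le_mul h4 h5 (by positivity) (Nat.cast_nonneg _)

/-- Uniqueness of the Fourier coefficients of a power series on the circle. -/
lemma series_unique (a : ℕ → ℂ) (b : ℕ → ℝ) (hb : Summable b) (hab : ∀ m, ‖a m‖ ≤ b m)
    (h : ∀ θ : ℝ, HasSum (fun m => a m * ee (m + 1 : ℕ) θ) 0) (k : ℕ) : a k = 0 := by
  have h1 : HasSum (fun m => ∫ θ in (0 : ℝ)..(2 * Real.pi), a m * ee (m + 1 : ℕ) θ *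
      ee (-((k + 1 : ℕ) : ℤ)) θ) (∫ θ in (0 : ℝ)..(2 * Real.pi), (0 : ℂ)) := by
    refine intervalIntegral.hasSum_integral_of_dominated_convergence (fun m _ => b m)
      (fun m => ?_) (fun m => ?_) ?_ ?_ ?_
    · exact ((continuous_const.mul (continuous_ee _)).mul (continuous_ee _)).aestronglyMeasurable
    · refine Eventually.of_forall fun θ _ => ?_
      rw [norm_mul, norm_mul, norm_ee, norm_ee, mul_one, mul_one]
      exact hab m
    · exact Eventually.of_forall fun θ _ => hb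
    · simp
    · refine Eventually.of_forall fun θ _ => ?_
      have := (h θ).mul_right (ee (-((k + 1 : ℕ) : ℤ)) θ)
      rwa [zero_mul] at this
  have h2 : ∀ m : ℕ, ∫ θ in (0 : ℝ)..(2 * Real.pi), a m * ee (m + 1 : ℕ) θ *
      ee (-((k + 1 : ℕ) : ℤ)) θ = if m = k then (2 * Real.pi : ℝ) * a m else 0 := by
    intro m
    have h3 : ∀ θ, a m * ee (m + 1 : ℕ) θ * ee (-((k + 1 : ℕ) : ℤ)) θ =
        a m * ee (((m + 1 : ℕ) : ℤ) + -((k + 1 : ℕ) : ℤ)) θ := by
      intro θ
      rw [mul_assoc, ee_mul]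
    simp only [h3]
    rw [intervalIntegral.integral_const_mul, int_ee]
    split_ifs with h4 h5 h5
    · ring
    · omega
    · omega
    · rw [mul_zero]
  simp only [h2, intervalIntegral.integral_zero] at h1
  have h3 : HasSum (fun m => if m = k then ((2 * Real.pi : ℝ) : ℂ) * a m else 0)
      (((2 * Real.pi : ℝ) : ℂ) * a k) := by
    have h5 : (fun m => if m = k then ((2 * Real.pi : ℝ) : ℂ) * a m else 0) =
        fun m => if m = k then ((2 * Real.pi : ℝ) : ℂ) * a k else 0 := by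
      funext m
      split_ifs with h
      · rw [h]
      · rfl
    rw [h5]
    exact hasSum_ite_eq k (((2 * Real.pi : ℝ) : ℂ) * a k)
  have h4 := h1.unique h3
  have h5 : ((2 * Real.pi : ℝ) : ℂ) ≠ 0 := by exact_mod_cast two_pi_pos'.ne'
  exact (mul_eq_zero.1 h4.symm).resolve_left h5

section
variable {n : ℕ} {d : Fin n → ℕ} (β : ∀ j, ℕ → Fin (d j) → ℂ) (h : Fin n → ℝ)

/-- The coefficients of a combination. -/
noncomputable def cm (p : ℕ) (u : Fin n → ℂ) (m : ℕ) : ℂ :=
  ∑ j, u j * (∑ i, β j p i ^ m) * ph p (h j) ^ m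

/-- The systems are independent. -/
def Ind : Prop := ∀ u : Fin n → ℂ, u ≠ 0 → ∀ x : ℕ, ∃ p : ℕ, x ≤ p ∧ p.Prime ∧
  ∃ m : ℕ, 1 ≤ m ∧ cm β h p u m ≠ 0

variable (hβ : ∀ j p i, ‖β j p i‖ ≤ 1)

include hβ in
lemma hasSum_FS (p : ℕ) (hp : p.Prime) (u : Fin n → ℂ) (x : ℂ) (hx : ‖x‖ ≤ 1) :
    HasSum (fun m : ℕ => cm β h p u (m + 1) / ((m + 1) * (p : ℂ) ^ (m + 1)) * x ^ (m + 1))
      (FS β h p u x) := by
  unfold FS
  have h1 := hasSum_sum fun j (_ : j ∈ (univ : Finset (Fin n))) =>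
    (hasSum_LF (β j p) p hp (hβ j p) (ph p (h j) * x)
      (by rw [norm_mul, norm_ph, one_mul]; exact hx)).mul_left (u j)
  have h2 : (fun m : ℕ => cm β h p u (m + 1) / ((m + 1) * (p : ℂ) ^ (m + 1)) * x ^ (m + 1)) =
      fun m : ℕ => ∑ j, u j * ((∑ i, β j p i ^ (m + 1)) / (m + 1) *
        (ph p (h j) * x / p) ^ (m + 1)) := by
    funext m
    unfold cm
    rw [sum_div, sum_mul]
    refine sum_congr rfl fun j _ => ?_
    rw [div_pow, mul_pow]
    have hp0 : (p : ℂ) ≠ 0 := by exact_mod_cast hp.ne_zero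
    have hm0 : (m : ℂ) + 1 ≠ 0 := by exact_mod_cast Nat.succ_ne_zero m
    field_simp
  rw [h2]
  exact h1

include hβ in
/-- A vanishing combination has vanishing coefficients. -/
lemma cm_zero (p : ℕ) (hp : p.Prime) (u : Fin n → ℂ) (hz : ∀ x : ℂ, ‖x‖ ≤ 1 → FS β h p u x = 0)
    (m : ℕ) : cm β h p u (m + 1) = 0 := by
  have hp0 : (p : ℂ) ≠ 0 := by exact_mod_cast hp.ne_zero
  have h1 : cm β h p u (m + 1) / ((m + 1) * (p : ℂ) ^ (m + 1)) = 0 := by
    refine series_unique (fun m : ℕ => cm β h p u (m + 1) / ((m + 1) * (p : ℂ) ^ (m + 1)))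
      (fun m => ∑ j, ‖u j‖ * (d j * (1 / 2 : ℝ) ^ m)) ?_ (fun m => ?_) (fun θ => ?_) m
    · refine summable_sum fun j _ => ?_
      exact ((summable_geometric_of_lt_one (by norm_num) (by norm_num)).mul_left _).mul_left _
    · have h2 : cm β h p u (m + 1) / ((m + 1) * (p : ℂ) ^ (m + 1)) =
          ∑ j, u j * ((∑ i, β j p i ^ (m + 1)) / (m + 1) * (ph p (h j) / p) ^ (m + 1)) := by
        unfold cm
        rw [sum_div]
        refine sum_congr rfl fun j _ => ?_
        rw [div_pow]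
        have hm0 : (m : ℂ) + 1 ≠ 0 := by exact_mod_cast Nat.succ_ne_zero m
        field_simp
      rw [h2]
      refine norm_sum_le_of_le _ fun j _ => ?_
      rw [norm_mul]
      exact mul_le_mul_of_nonneg_left
        (norm_term (β j p) p hp (hβ j p) (ph p (h j)) (norm_ph p (h j)).le m) (norm_nonneg _)
    · have h2 := hasSum_FS β h hβ p hp u (ee 1 θ) (norm_ee 1 θ).le
      rw [hz _ (norm_ee 1 θ).le] at h2
      simpa only [ee_one_pow] using h2
  rcases div_eq_zero_iff.1 h1 with h2 | h2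
  · exact h2
  · exfalso
    have hm0 : (m : ℂ) + 1 ≠ 0 := by exact_mod_cast Nat.succ_ne_zero m
    exact mul_ne_zero hm0 (pow_ne_zero _ hp0) h2

include hβ in
/-- Independence gives non-degeneracy. -/
lemma nonDeg (hI : Ind β h) (p₀ : ℕ)
    (hloc : ∀ p, p.Prime → p₀ ≤ p → LocV (cc β h) (rv β h) (dd d) (PJ β h p) p) :
    NonDeg (PJ β h) := by
  intro u hu x
  have hu' : (fun j => conj (u j)) ≠ 0 := by
    intro h0
    apply hu
    funext j
    have := congrFun h0 j
    simpa using this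
  obtain ⟨p, h1, h2, m, h3, h4⟩ := hI _ hu' (max x p₀)
  refine ⟨p, (le_max_left _ _).trans h1, h2, ?_⟩
  by_contra hcon
  push Not at hcon
  obtain ⟨m, rfl⟩ : ∃ k, m = k + 1 := ⟨m - 1, by omega⟩
  exact h4 (cm_zero β h hβ p h2 _
    (fun x hx => relation β h hβ p h2 (hloc p h2 ((le_max_right _ _).trans h1)) u hcon x hx) m)

end

/-- **One Euler product and distinct shifts are independent.** -/
theorem ind_same {n d : ℕ} (β : ℕ → Fin d → ℂ) (h : Fin n → ℝ) (hinj : Function.Injective h)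
    (x₀ : ℕ) (hne : ∀ p, x₀ ≤ p → p.Prime → ∃ i, β p i ≠ 0) :
    Ind (d := fun _ : Fin n => d) (fun _ => β) h := by
  classical
  intro u hu x
  by_contra hcon
  push Not at hcon
  -- the exponential polynomials
  set F : ℕ → AddMonoidAlgebra ℂ ℝ := fun k =>
    ∑ j, AddMonoidAlgebra.single ((k : ℝ) * h j) (u j) with hF
  set ev : ℕ → (AddMonoidAlgebra ℂ ℝ →ₐ[ℂ] ℂ) := fun p => AddMonoidAlgebra.lift ℂ ℂ ℝ
    { toFun := fun l => ph p (Multiplicative.toAdd l)
      map_one' := by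
        show ph p 0 = 1
        unfold ph
        simp
      map_mul' := fun a b => by
        show ph p (Multiplicative.toAdd a + Multiplicative.toAdd b) = _
        exact ph_add p _ _ } with hev
  have hevs : ∀ (p : ℕ) (l : ℝ) (b : ℂ), ev p (AddMonoidAlgebra.single l b) = b * ph p l := by
    intro p l b
    simp only [hev]
    rw [AddMonoidAlgebra.lift_single]
    rfl
  have hFne : ∀ k ∈ Icc 1 d, F k ≠ 0 := by
    intro k hk h0
    obtain ⟨j₀, hj₀⟩ : ∃ j, u j ≠ 0 := by
      by_contra h1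
      push Not at h1
      exact hu (funext h1)
    have hk0 : (k : ℝ) ≠ 0 := by
      have := (mem_Icc.1 hk).1
      exact_mod_cast (by omega : k ≠ 0)
    have h1 : (F k).coeff ((k : ℝ) * h j₀) = u j₀ := by
      simp only [hF]
      rw [AddMonoidAlgebra.coeff_sum, Finsupp.finsetSum_apply, sum_eq_single j₀]
      · rw [AddMonoidAlgebra.coeff_single, Finsupp.single_eq_same]
      · intro j _ hj
        rw [AddMonoidAlgebra.coeff_single, Finsupp.single_apply, if_neg]
        intro h2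
        exact hj (hinj (mul_left_cancel₀ hk0 h2))
      · intro h2
        exact absurd (mem_univ j₀) h2
    rw [h0] at h1
    exact hj₀ h1.symm
  have hprod : (∏ k ∈ Icc 1 d, F k) ≠ 0 := prod_ne_zero_iff.2 hFne
  apply hprod
  have key : ∀ p : ℕ, p.Prime → x + x₀ ≤ p → ev p (∏ k ∈ Icc 1 d, F k) = 0 := by
    intro p hp hpx
    obtain ⟨i, hi⟩ := hne p (by omega) hp
    obtain ⟨k, hk, hs⟩ := exists_pow_sum (β p) i hi
    have h1 := hcon p (by omega) hp k (mem_Icc.1 hk).1
    unfold cm at h1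
    have h2 : (∑ j, u j * ph p (h j) ^ k) * ∑ i, β p i ^ k = 0 := by
      rw [← h1, sum_mul]
      exact sum_congr rfl fun j _ => by ring
    have hcoef : ∑ j, u j * ph p (h j) ^ k = 0 := (mul_eq_zero.1 h2).resolve_right hs
    have hFk : ev p (F k) = 0 := by
      simp only [hF, map_sum, hevs]
      rw [← hcoef]
      refine sum_congr rfl fun j _ => ?_
      congr 1
      unfold ph
      rw [← Complex.exp_nat_mul]
      congr 1
      push_cast
      ring
    rw [map_prod]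
    exact prod_eq_zero hk hFk
  have h1 : (∏ k ∈ Icc 1 d, F k).coeff = 0 := by
    refine vanish _ (x + x₀) fun p hp hpx => ?_
    have h2 := key p hp hpx
    simp only [hev] at h2
    rw [AddMonoidAlgebra.lift_apply] at h2
    exact h2
  have h2 : (∏ k ∈ Icc 1 d, F k).coeff = (0 : AddMonoidAlgebra ℂ ℝ).coeff := by
    rw [h1]
    rfl
  exact AddMonoidAlgebra.coeff_injective h2

end Pool.Agent.N903.LG
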