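import Pool.Agent.N903.EV.Lawv

/-!
# The product formula for the characteristic function and the exponential moments
-/

set_option autoImplicit false
set_option linter.unusedSectionVars false

namespace Pool.Agent.N903.LG

open Finset Filter Topology MeasureTheory Pool.Agent.W350.Edge Pool.Agent.N903.ED
  Pool.Agent.N903.EL Pool.Agent.N903.EV
open scoped ENNReal ComplexConjugate BoundedContinuousFunction

lemma exp_quad (y : ℝ) :
    ‖Complex.exp ((y : ℝ) * Complex.I) - 1 - (y : ℝ) * Complex.I‖ ≤ 3 * y ^ 2 := by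
  rcases le_or_gt |y| 1 with h | h
  · have h1 : ‖(y : ℂ) * Complex.I‖ = |y| := by simp
    have h2 := Complex.norm_exp_sub_one_sub_id_le (x := (y : ℂ) * Complex.I) (by rw [h1]; exact h)
    rw [h1, sq_abs] at h2
    nlinarith [sq_nonneg y]
  · have h1 : ‖Complex.exp ((y : ℝ) * Complex.I) - 1‖ ≤ |y| := by
      have h2 := exp_diff y 0
      simpa using h2
    have h2 : ‖(y : ℂ) * Complex.I‖ = |y| := by simp
    refine (norm_sub_le _ _).trans ?_
    rw [h2, ← sq_abs]
    nlinarith

lemma exp_real (y Y : ℝ) (hy : |y| ≤ Y) : Real.exp y ≤ 1 + y + 3 * y ^ 2 * Real.exp Y := by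
  have hY0 : 0 ≤ Y := (abs_nonneg y).trans hy
  have hY : 1 ≤ Real.exp Y := Real.one_le_exp hY0
  rcases le_or_gt |y| 1 with h | h
  · have h3 := (abs_le.1 (Real.abs_exp_sub_one_sub_id_le h)).2
    nlinarith [sq_nonneg y]
  · have h1 : Real.exp y ≤ Real.exp Y := Real.exp_le_exp.2 ((le_abs_self y).trans hy)
    have h2 : 1 ≤ y ^ 2 := by
      rw [← sq_abs]
      nlinarith
    have h3 : -y ≤ y ^ 2 := by
      rw [← sq_abs]
      nlinarith [neg_abs_le y, neg_le_abs y]
    nlinarith

section
variable {n : ℕ} (c : Fin n → ℕ → ℂ) (D : ℝ) (r : Fin n → ℕ → ℂ → ℂ) (ρ : Fin n → ℕ → ℝ)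
  (hc : ∀ j p, ‖c j p‖ ≤ D) (hρ : ∀ j, Summable (ρ j))
  (hr : ∀ j p x, ‖x‖ = 1 → ‖r j p x‖ ≤ ρ j p)
  (hrc : ∀ j p, ContinuousOn (r j p) (Metric.sphere 0 1))
  (hr0 : ∀ j p, ¬ p.Prime → ∀ x, r j p x = 0)
  (G : ℝ) (hG : ∀ p, p.Prime → ∀ θ, ‖gpv c r p (ee 1 θ)‖ ≤ G / p)
  (h0 : ∀ p, p.Prime → ∀ t : EE n,
    ∫ θ in (0 : ℝ)..(2 * Real.pi), (inner ℝ (gpv c r p (ee 1 θ)) t : ℝ) = 0)

include hrc in
lemma continuous_gee (p : ℕ) : Continuous fun θ => gpv c r p (ee 1 θ) :=
  (continuous_gpv c r hrc p).comp_continuous (continuous_ee 1) fun θ => by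
    rw [mem_sphere_zero_iff_norm, norm_ee]

include hrc in
lemma continuous_inner_gee (p : ℕ) (t : EE n) :
    Continuous fun θ => (inner ℝ (gpv c r p (ee 1 θ)) t : ℝ) :=
  (continuous_gee c r hrc p).inner continuous_const

include hG in
lemma abs_inner_gee (p : ℕ) (hp : p.Prime) (t : EE n) (θ : ℝ) :
    |(inner ℝ (gpv c r p (ee 1 θ)) t : ℝ)| ≤ G * ‖t‖ / p := by
  refine (abs_real_inner_le_norm _ _).trans ?_
  have h1 := hG p hp θ
  calc ‖gpv c r p (ee 1 θ)‖ * ‖t‖ ≤ G / p * ‖t‖ := by gcongr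
    _ = _ := by ring

include hrc hG h0 in
lemma lcv_sub_one (p : ℕ) (hp : p.Prime) (t : EE n) :
    ‖lcv c r p t - 1‖ ≤ 3 * (G * ‖t‖ / p) ^ 2 := by
  have hcont := continuous_inner_gee c r hrc p t
  have h2 : lcv c r p t - 1 = cmean fun θ =>
      (Complex.exp (((inner ℝ (gpv c r p (ee 1 θ)) t : ℝ) : ℂ) * Complex.I) - 1 -
        ((inner ℝ (gpv c r p (ee 1 θ)) t : ℝ) : ℂ) * Complex.I) := by
    unfold lcv cmean chv
    have hi1 : IntervalIntegrable (fun θ => Complex.exp
        (((inner ℝ (gpv c r p (ee 1 θ)) t : ℝ) : ℂ) * Complex.I)) volume 0 (2 * Real.pi) :=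
      Continuous.intervalIntegrable (by fun_prop) _ _
    have hi2 : IntervalIntegrable (fun θ =>
        ((inner ℝ (gpv c r p (ee 1 θ)) t : ℝ) : ℂ) * Complex.I) volume 0 (2 * Real.pi) :=
      Continuous.intervalIntegrable (by fun_prop) _ _
    rw [intervalIntegral.integral_sub (hi1.sub intervalIntegrable_const) hi2,
      intervalIntegral.integral_sub hi1 intervalIntegrable_const]
    rw [intervalIntegral.integral_mul_const, intervalIntegral.integral_ofReal, h0 p hp t]
    simp only [intervalIntegral.integral_const, sub_zero, Complex.ofReal_zero, zero_mul,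
      smul_sub, smul_smul]
    rw [inv_mul_cancel₀ two_pi_pos'.ne', one_smul]
  rw [h2]
  unfold cmean
  rw [norm_smul, norm_inv, Real.norm_of_nonneg two_pi_pos'.le, inv_mul_le_iff₀ two_pi_pos']
  have h3 := intervalIntegral.norm_integral_le_of_norm_le_const (a := 0) (b := 2 * Real.pi)
    (C := 3 * (G * ‖t‖ / p) ^ 2) (f := fun θ =>
      (Complex.exp (((inner ℝ (gpv c r p (ee 1 θ)) t : ℝ) : ℂ) * Complex.I) - 1 -
        ((inner ℝ (gpv c r p (ee 1 θ)) t : ℝ) : ℂ) * Complex.I)) (fun θ _ => by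
      refine (exp_quad _).trans ?_
      have h4 := abs_inner_gee c r G hG p hp t θ
      have h5 : (inner ℝ (gpv c r p (ee 1 θ)) t : ℝ) ^ 2 ≤ (G * ‖t‖ / p) ^ 2 := by
        rw [← sq_abs]
        exact pow_le_pow_left₀ (abs_nonneg _) h4 2
      linarith)
  rw [sub_zero, abs_of_pos two_pi_pos'] at h3
  linarith

/-- The local factors of the characteristic function, `1` off the primes. -/
noncomputable def Lc (t : EE n) (p : ℕ) : ℂ := if p.Prime then lcv c r p t else 1

lemma afv_eq (N : ℕ) (t : EE n) : afv c r N t = ∏ p ∈ range N, Lc c r t p := by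
  unfold afv Lc
  rw [prod_filter]

include hrc hG h0 in
lemma multipliable_Lc (t : EE n) : Multipliable (Lc c r t) := by
  have h1 : Lc c r t = fun p => 1 + (Lc c r t p - 1) := by
    funext p
    ring
  rw [h1]
  refine multipliable_one_add_of_summable ?_
  have h2 : Summable fun p : ℕ => 3 * (G * ‖t‖) ^ 2 * (1 / (p : ℝ) ^ 2) :=
    (Real.summable_one_div_nat_pow.2 (by norm_num : 1 < 2)).mul_left _
  refine Summable.of_nonneg_of_le (fun p => norm_nonneg _) (fun p => ?_) h2
  unfold Lc
  split_ifs with hp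
  · refine (lcv_sub_one c r hrc G hG h0 p hp t).trans (le_of_eq ?_)
    rw [div_pow]
    ring
  · rw [sub_self, norm_zero]
    positivity

include hrc hG h0 in
/-- **The product formula.** -/
lemma hasProd_Lc (φ : EE n → ℂ) (hφ : ∀ t, Tendsto (fun J => afv c r (NN 3 J) t) atTop (𝓝 (φ t)))
    (t : EE n) : HasProd (fun p : Nat.Primes => lcv c r p t) (φ t) := by
  have h1 := (multipliable_Lc c r hrc G hG h0 t).hasProd
  have h2 := h1.tendsto_prod_nat.comp (tendsto_NN 3)
  have h3 : ∏' p, Lc c r t p = φ t := by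
    refine tendsto_nhds_unique h2 ((hφ t).congr fun J => ?_)
    rw [afv_eq]
    rfl
  rw [h3] at h1
  have h4 : Function.mulSupport (Lc c r t) ⊆ {p : ℕ | p.Prime} := by
    intro p hp
    by_contra h
    apply hp
    have h' : ¬ p.Prime := h
    unfold Lc
    rw [if_neg h']
  have h5 := (hasProd_subtype_iff_of_mulSupport_subset h4).2 h1
  have h6 : (Lc c r t ∘ ((↑) : {p : ℕ | p.Prime} → ℕ)) = fun p : {p : ℕ | p.Prime} =>
      lcv c r p t := by
    funext p
    show Lc c r t p = _
    have h' : (p : ℕ).Prime := p.2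
    unfold Lc
    rw [if_pos h']
  rw [h6] at h5
  exact h5

/-! ### Exponential moments -/

/-- The local exponential moment. -/
noncomputable def em (p : ℕ) (t : EE n) : ℝ :=
  (2 * Real.pi)⁻¹ * ∫ θ in (0 : ℝ)..(2 * Real.pi), Real.exp (inner ℝ (gpv c r p (ee 1 θ)) t)

lemma em_nonneg (p : ℕ) (t : EE n) : 0 ≤ em c r p t := by
  unfold em
  refine mul_nonneg (inv_nonneg.2 two_pi_pos'.le) ?_
  exact intervalIntegral.integral_nonneg two_pi_pos'.le fun θ _ => (Real.exp_pos _).le

include hrc hG h0 in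
lemma em_le (p : ℕ) (hp : p.Prime) (hG0 : 0 ≤ G) (t : EE n) :
    em c r p t ≤ 1 + 3 * (G * ‖t‖ / p) ^ 2 * Real.exp (G * ‖t‖) := by
  have hcont := continuous_inner_gee c r hrc p t
  have hp1 : (1 : ℝ) ≤ p := by exact_mod_cast hp.one_le
  have h1 : ∀ θ, Real.exp (inner ℝ (gpv c r p (ee 1 θ)) t) ≤
      (1 + 3 * (G * ‖t‖ / p) ^ 2 * Real.exp (G * ‖t‖)) +
        (inner ℝ (gpv c r p (ee 1 θ)) t : ℝ) := by
    intro θ
    have h4 := abs_inner_gee c r G hG p hp t θ
    have h5 : G * ‖t‖ / p ≤ G * ‖t‖ := div_le_self (by positivity) hp1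
    have h6 := exp_real _ _ (h4.trans h5)
    have h7 : (inner ℝ (gpv c r p (ee 1 θ)) t : ℝ) ^ 2 ≤ (G * ‖t‖ / p) ^ 2 := by
      rw [← sq_abs]
      exact pow_le_pow_left₀ (abs_nonneg _) h4 2
    have h8 := Real.exp_pos (G * ‖t‖)
    nlinarith
  unfold em
  rw [inv_mul_le_iff₀ two_pi_pos']
  have h2 := intervalIntegral.integral_mono_on (μ := volume) two_pi_pos'.le
    (Continuous.intervalIntegrable (by fun_prop) _ _)
    (Continuous.intervalIntegrable (by fun_prop) _ _) (fun θ _ => h1 θ)
  refine h2.trans (le_of_eq ?_)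
  rw [intervalIntegral.integral_add intervalIntegrable_const
    (Continuous.intervalIntegrable (by fun_prop) _ _), h0 p hp t,
    intervalIntegral.integral_const, smul_eq_mul]
  ring

/-- The bound of the exponential moments. -/
noncomputable def eB (t : EE n) : ℝ :=
  Real.exp (∑' p : ℕ, 3 * (G * ‖t‖) ^ 2 * Real.exp (G * ‖t‖) * (1 / (p : ℝ) ^ 2))

include hrc hG h0 in
lemma prod_em_le (hG0 : 0 ≤ G) (N : ℕ) (t : EE n) :
    ∏ p ∈ (range N).filter Nat.Prime, em c r p t ≤ eB G t := by
  have hs : Summable fun p : ℕ => 3 * (G * ‖t‖) ^ 2 * Real.exp (G * ‖t‖) * (1 / (p : ℝ) ^ 2) :=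
    (Real.summable_one_div_nat_pow.2 (by norm_num : 1 < 2)).mul_left _
  have hn : ∀ p : ℕ, 0 ≤ 3 * (G * ‖t‖) ^ 2 * Real.exp (G * ‖t‖) * (1 / (p : ℝ) ^ 2) :=
    fun p => by positivity
  have h1 : ∀ p ∈ (range N).filter Nat.Prime, em c r p t ≤
      Real.exp (3 * (G * ‖t‖) ^ 2 * Real.exp (G * ‖t‖) * (1 / (p : ℝ) ^ 2)) := by
    intro p hp
    refine (em_le c r hrc G hG h0 p (mem_filter.1 hp).2 hG0 t).trans ?_
    have h2 := Real.add_one_le_exp (3 * (G * ‖t‖) ^ 2 * Real.exp (G * ‖t‖) * (1 / (p : ℝ) ^ 2))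
    refine le_trans (le_of_eq ?_) h2
    rw [div_pow]
    ring
  calc ∏ p ∈ (range N).filter Nat.Prime, em c r p t ≤
        ∏ p ∈ (range N).filter Nat.Prime,
          Real.exp (3 * (G * ‖t‖) ^ 2 * Real.exp (G * ‖t‖) * (1 / (p : ℝ) ^ 2)) :=
        prod_le_prod (fun p _ => em_nonneg c r p t) h1
    _ = Real.exp (∑ p ∈ (range N).filter Nat.Prime,
          3 * (G * ‖t‖) ^ 2 * Real.exp (G * ‖t‖) * (1 / (p : ℝ) ^ 2)) := (Real.exp_sum _ _).symm
    _ ≤ _ := Real.exp_le_exp.2 (hs.sum_le_tsum _ fun p _ => hn p)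

include hrc hr0 in
/-- The mean of the exponential of the truncated sum. -/
lemma mean_exp_tsv (N : ℕ) (t : EE n) :
    Tendsto (mn fun τ => Real.exp (inner ℝ (tsv c r N τ) t)) UW
      (𝓝 (∏ p ∈ (range N).filter Nat.Prime, em c r p t)) := by
  have h1 := prime_mean ((range N).filter Nat.Prime) (fun p hp => (mem_filter.1 hp).2)
    (fun p x => ((Real.exp (inner ℝ (gpv c r p x) t) : ℝ) : ℂ))
    (fun p _ => by
      have := continuous_gpv c r hrc p
      refine Complex.continuous_ofReal.comp_continuousOn (Real.continuous_exp.comp_continuousOn ?_)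
      exact this.inner continuousOn_const)
  have h2 : ∏ p ∈ (range N).filter Nat.Prime,
      (cmean fun θ => ((Real.exp (inner ℝ (gpv c r p (ee 1 θ)) t) : ℝ) : ℂ)) =
      ((∏ p ∈ (range N).filter Nat.Prime, em c r p t : ℝ) : ℂ) := by
    rw [Complex.ofReal_prod]
    refine prod_congr rfl fun p _ => ?_
    unfold cmean em
    rw [intervalIntegral.integral_ofReal, Complex.real_smul]
    push_cast
    ring
  rw [h2] at h1
  have h3 : ∀ q, mn (fun τ => ∏ p ∈ (range N).filter Nat.Prime,
      ((Real.exp (inner ℝ (gpv c r p (ph p τ)) t) : ℝ) : ℂ)) q =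
      ((mn (fun τ => Real.exp (inner ℝ (tsv c r N τ) t)) q : ℝ) : ℂ) := by
    intro q
    have h4 : ∀ τ, ∏ p ∈ (range N).filter Nat.Prime,
        ((Real.exp (inner ℝ (gpv c r p (ph p τ)) t) : ℝ) : ℂ) =
        ((Real.exp (inner ℝ (tsv c r N τ) t) : ℝ) : ℂ) := by
      intro τ
      rw [← Complex.ofReal_prod, ← Real.exp_sum, tsv_eq, sum_inner, sum_filter]
      congr 2
      refine sum_congr rfl fun p _ => ?_
      split_ifs with hp
      · rfl
      · have h2 : gpv c r p (ph p τ) = 0 := by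
          unfold gpv
          rw [← WithLp.toLp_zero]
          congr 1
          funext j
          unfold gp
          rw [if_neg hp, hr0 j p hp, add_zero]
          rfl
        rw [h2, inner_zero_left]
    simp only [h4]
    unfold mn
    rw [intervalIntegral.integral_ofReal, Complex.real_smul, smul_eq_mul]
    push_cast
    ring
  have h4 := h1.congr h3
  have h5 := (Complex.continuous_re.tendsto _).comp h4
  refine (h5.congr fun q => ?_)
  simp

include hrc in
lemma continuous_afv (N : ℕ) : Continuous fun t => afv c r N t := by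
  have hlc : ∀ p, Continuous fun t => lcv c r p t := by
    intro p
    suffices h : Continuous (Function.uncurry fun (t : EE n) (θ : ℝ) =>
        chv t (gpv c r p (ee 1 θ))) by
      have h6 := intervalIntegral.continuous_parametric_intervalIntegral_of_continuous'
        (μ := volume) h 0 (2 * Real.pi)
      exact h6.const_smul (2 * Real.pi : ℝ)⁻¹
    have h4 := continuous_gee c r hrc p
    show Continuous fun z : EE n × ℝ => chv z.1 (gpv c r p (ee 1 z.2))
    unfold chv
    have h5 : Continuous fun z : EE n × ℝ => gpv c r p (ee 1 z.2) := h4.comp continuous_snd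
    fun_prop
  unfold afv
  exact continuous_finsetProd _ fun p _ => hlc p

include hrc hr0 in
/-- The law of the truncated sum. -/
lemma lawN (N : ℕ) : ∃ μ : ProbabilityMeasure (EE n),
    (∀ t, charFun (μ : Measure (EE n)) t = afv c r N t) ∧
    ∀ F : EE n →ᵇ ℝ, Tendsto (mn fun τ => F (tsv c r N τ)) UW
      (𝓝 (∫ x, F x ∂(μ : Measure (EE n)))) :=
  limit_law (tsv c r N) (continuous_tsv c r hrc N).measurable.aemeasurable (fun t => afv c r N t)
    (continuous_afv c r hrc N).continuousAt (fun t => mean_tsv c r hrc hr0 N t)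

/-- The truncated exponential. -/
noncomputable def Fe (t : EE n) (M : ℕ) : EE n →ᵇ ℝ :=
  BoundedContinuousFunction.ofNormedAddCommGroup
    (fun w => min (Real.exp (inner ℝ w t)) M) (by fun_prop) M (fun w => by
      rw [Real.norm_of_nonneg (le_min (Real.exp_pos _).le (Nat.cast_nonneg _))]
      exact min_le_right _ _)

include hrc hr0 hG h0 in
/-- **Exponential moments.** -/
theorem exp_moment (hG0 : 0 ≤ G) (ν : ProbabilityMeasure (EE n))
    (hν : ∀ t, Tendsto (fun J => afv c r (NN 3 J) t) atTop (𝓝 (charFun (ν : Measure (EE n)) t)))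
    (t : EE n) : Integrable (fun w => Real.exp (inner ℝ w t)) (ν : Measure (EE n)) := by
  choose μ hμ1 hμ2 using fun N => lawN c r hrc hr0 N
  have h1 : Tendsto (fun J => μ (NN 3 J)) atTop (𝓝 ν) := by
    refine ProbabilityMeasure.tendsto_of_tendsto_charFun fun t => ?_
    simp only [hμ1]
    exact hν t
  rw [ProbabilityMeasure.tendsto_iff_forall_integral_tendsto] at h1
  have h2 : ∀ M N : ℕ, ∫ w, Fe t M w ∂(μ N : Measure (EE n)) ≤ eB G t := by
    intro M N
    have h3 := mean_exp_tsv c r hrc hr0 N t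
    refine (le_of_tendsto_of_tendsto (hμ2 N (Fe t M)) h3 ?_).trans
      (prod_em_le c r hrc G hG h0 hG0 N t)
    filter_upwards [tendsto_snd_UW.eventually_ge_atTop 1] with q hq
    unfold mn
    have hq0 : 0 < q.2 := by linarith
    rw [smul_eq_mul, smul_eq_mul]
    refine mul_le_mul_of_nonneg_left ?_ (inv_nonneg.2 hq0.le)
    have hct := continuous_tsv c r hrc N
    refine intervalIntegral.integral_mono_on (by linarith)
      (((Fe t M).continuous.comp hct).intervalIntegrable _ _)
      (Continuous.intervalIntegrable (by fun_prop) _ _) fun τ _ => min_le_left _ _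
  have h3 : ∀ M : ℕ, ∫ w, Fe t M w ∂(ν : Measure (EE n)) ≤ eB G t := fun M =>
    le_of_tendsto (h1 (Fe t M)) (Eventually.of_forall fun J => h2 M _)
  have hcont : Continuous fun w : EE n => Real.exp (inner ℝ w t) := by fun_prop
  refine ⟨hcont.aestronglyMeasurable, ?_⟩
  rw [hasFiniteIntegral_iff_ofReal (Eventually.of_forall fun w => (Real.exp_pos _).le)]
  have h4 : ∀ w : EE n, ENNReal.ofReal (Real.exp (inner ℝ w t)) =
      ⨆ M : ℕ, ENNReal.ofReal (Fe t M w) := by
    intro w
    refine le_antisymm ?_ (iSup_le fun M => ENNReal.ofReal_le_ofReal (min_le_left _ _))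
    obtain ⟨M, hM⟩ := exists_nat_ge (Real.exp (inner ℝ w t))
    refine le_iSup_of_le M (ENNReal.ofReal_le_ofReal ?_)
    exact le_min le_rfl hM
  simp only [h4]
  rw [lintegral_iSup (fun M => (Fe t M).continuous.measurable.ennreal_ofReal)]
  · refine (iSup_le (a := ENNReal.ofReal (eB G t)) fun M => ?_).trans_lt ENNReal.ofReal_lt_top
    rw [← ofReal_integral_eq_lintegral_ofReal ((Fe t M).integrable _)
      (Eventually.of_forall fun w => le_min (Real.exp_pos _).le (Nat.cast_nonneg _))]
    exact ENNReal.ofReal_le_ofReal (h3 M)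
  · intro M M' hM w
    refine ENNReal.ofReal_le_ofReal (min_le_min le_rfl ?_)
    exact_mod_cast hM

/-- All exponential moments from those of the linear functions. -/
lemma exp_norm (ν : Measure (EE n)) [IsFiniteMeasure ν]
    (h : ∀ t : EE n, Integrable (fun w => Real.exp (inner ℝ w t)) ν) (C : ℝ) :
    Integrable (fun w => Real.exp (C * ‖w‖)) ν := by
  classical
  set a : ℝ := |C| * (2 * n) with ha
  -- the coordinate directions
  set T : Fin n × ℂ → EE n := fun q => WithLp.toLp 2 fun j => if j = q.1 then q.2 else 0 with hT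
  have hin : ∀ (q : Fin n × ℂ) (w : EE n), (inner ℝ w (T q) : ℝ) = (conj q.2 * w q.1).re := by
    intro q w
    rw [inner_eq, sum_eq_single q.1]
    · simp [hT]
    · intro j _ hj
      simp [hT, hj]
    · intro h
      exact absurd (mem_univ _) h
  have hint : Integrable (fun w : EE n => 1 + ∑ j, (Real.exp (inner ℝ w (T (j, (a : ℂ)))) +
      Real.exp (inner ℝ w (T (j, -(a : ℂ)))) + Real.exp (inner ℝ w (T (j, (a : ℂ) * Complex.I))) +
      Real.exp (inner ℝ w (T (j, -((a : ℂ) * Complex.I)))))) ν := by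
    refine (integrable_const _).add (integrable_finsetSum _ fun j _ => ?_)
    exact (((h _).add (h _)).add (h _)).add (h _)
  refine hint.mono' (Continuous.aestronglyMeasurable (by fun_prop)) (Eventually.of_forall fun w => ?_)
  rw [Real.norm_of_nonneg (Real.exp_pos _).le]
  simp only [hin]
  have h1 : ∀ j, Real.exp (a * |(w j).re|) ≤
      Real.exp ((conj (a : ℂ) * w j).re) + Real.exp ((conj (-(a : ℂ)) * w j).re) := by
    intro j
    rcases abs_cases (w j).re with ⟨h2, -⟩ | ⟨h2, -⟩
    · rw [h2]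
      have : (conj (a : ℂ) * w j).re = a * (w j).re := by simp
      rw [this]
      linarith [Real.exp_pos ((conj (-(a : ℂ)) * w j).re)]
    · rw [h2]
      have : (conj (-(a : ℂ)) * w j).re = a * -(w j).re := by simp
      rw [this]
      linarith [Real.exp_pos ((conj (a : ℂ) * w j).re)]
  have h2 : ∀ j, Real.exp (a * |(w j).im|) ≤
      Real.exp ((conj ((a : ℂ) * Complex.I) * w j).re) +
      Real.exp ((conj (-((a : ℂ) * Complex.I)) * w j).re) := by
    intro j
    rcases abs_cases (w j).im with ⟨h2, -⟩ | ⟨h2, -⟩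
    · rw [h2]
      have : (conj ((a : ℂ) * Complex.I) * w j).re = a * (w j).im := by simp
      rw [this]
      linarith [Real.exp_pos ((conj (-((a : ℂ) * Complex.I)) * w j).re)]
    · rw [h2]
      have : (conj (-((a : ℂ) * Complex.I)) * w j).re = a * -(w j).im := by simp
      rw [this]
      linarith [Real.exp_pos ((conj ((a : ℂ) * Complex.I) * w j).re)]
  -- the largest coordinate
  set m : ℝ := ∑ j, (|(w j).re| + |(w j).im|) with hm
  have hwm : ‖w‖ ≤ m := (norm_le_sum w).trans (sum_le_sum fun j _ =>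
    Complex.norm_le_abs_re_add_abs_im _)
  have hCm : Real.exp (C * ‖w‖) ≤ Real.exp (|C| * m) := by
    refine Real.exp_le_exp.2 ?_
    calc C * ‖w‖ ≤ |C| * ‖w‖ := mul_le_mul_of_nonneg_right (le_abs_self C) (norm_nonneg _)
      _ ≤ |C| * m := mul_le_mul_of_nonneg_left hwm (abs_nonneg C)
  refine hCm.trans ?_
  rcases Nat.eq_zero_or_pos n with hn | hn
  · subst hn
    simp [hm]
  · have hn0 : (0 : ℝ) < n := by exact_mod_cast hn
    obtain ⟨j, -, hj⟩ := exists_max_image (univ : Finset (Fin n))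
      (fun j => max |(w j).re| |(w j).im|) ⟨⟨0, hn⟩, mem_univ _⟩
    have h3 : m ≤ 2 * n * max |(w j).re| |(w j).im| := by
      rw [hm]
      calc ∑ i, (|(w i).re| + |(w i).im|) ≤ ∑ _i : Fin n, 2 * max |(w j).re| |(w j).im| := by
            refine sum_le_sum fun i hi => ?_
            have h4 := hj i hi
            have h5 := le_max_left |(w i).re| |(w i).im|
            have h6 := le_max_right |(w i).re| |(w i).im|
            linarith
        _ = _ := by
            rw [sum_const, card_univ, Fintype.card_fin, nsmul_eq_mul]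
            ring
    have h4 : Real.exp (|C| * m) ≤ Real.exp (a * |(w j).re|) + Real.exp (a * |(w j).im|) := by
      have h5 : |C| * m ≤ a * max |(w j).re| |(w j).im| := by
        rw [ha]
        calc |C| * m ≤ |C| * (2 * n * max |(w j).re| |(w j).im|) :=
              mul_le_mul_of_nonneg_left h3 (abs_nonneg C)
          _ = _ := by ring
      refine (Real.exp_le_exp.2 h5).trans ?_
      rcases max_cases |(w j).re| |(w j).im| with ⟨h6, -⟩ | ⟨h6, -⟩
      · rw [h6]
        linarith [Real.exp_pos (a * |(w j).im|)]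
      · rw [h6]
        linarith [Real.exp_pos (a * |(w j).re|)]
    refine h4.trans ((add_le_add (h1 j) (h2 j)).trans ?_)
    set S : Fin n → ℝ := fun j => (Real.exp ((conj (a : ℂ) * w j).re) +
      Real.exp ((conj (-(a : ℂ)) * w j).re) + Real.exp ((conj ((a : ℂ) * Complex.I) * w j).re) +
      Real.exp ((conj (-((a : ℂ) * Complex.I)) * w j).re)) with hS
    have h5 : S j ≤ ∑ i, S i := single_le_sum (fun i _ => by
      simp only [hS]
      positivity) (mem_univ j)
    have h6 : Real.exp ((conj (a : ℂ) * w j).re) + Real.exp ((conj (-(a : ℂ)) * w j).re) +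
        (Real.exp ((conj ((a : ℂ) * Complex.I) * w j).re) +
        Real.exp ((conj (-((a : ℂ) * Complex.I)) * w j).re)) = S j := by
      simp only [hS]
      ring
    rw [h6]
    linarith

end

end Pool.Agent.N903.LG
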