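import Pool.Agent.N903.LG.Ind
import Pool.Agent.N903.LG.Mom

/-!
# Boundary values and the joint law of a system of Euler products
-/

set_option autoImplicit false
set_option linter.unusedSectionVars false

namespace Pool.Agent.N903.LG

open Finset Filter Topology MeasureTheory Pool.Agent.W350.Edge Pool.Agent.N903.ED
  Pool.Agent.N903.EL Pool.Agent.N903.EV
open scoped ComplexConjugate ContDiff BoundedContinuousFunction

section
variable {n : ℕ} {d : Fin n → ℕ} (β : ∀ j, ℕ → Fin (d j) → ℂ) (h : Fin n → ℝ)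
  (hβ : ∀ j p i, ‖β j p i‖ ≤ 1)

/-- The remainder in the half-plane. -/
noncomputable def R0 (j : Fin n) (z : ℂ) : ℂ := ∑' p : ℕ, r0 β j p (X p z)

include hβ in
lemma norm_r0X (j : Fin n) (p : ℕ) (z : ℂ) (hz : 0 ≤ z.re) : ‖r0 β j p (X p z)‖ ≤ rb d j p := by
  by_cases hp : p.Prime
  · exact norm_r0 β hβ j p _ (norm_X p hp.one_le z hz)
  · unfold r0 rb
    rw [if_neg hp, norm_zero]
    positivity

include hβ in
lemma continuousOn_R0 (j : Fin n) : ContinuousOn (R0 β j) {z : ℂ | 0 ≤ z.re} := by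
  refine continuousOn_tsum (fun p => ?_) (summable_rb j) (fun p z hz => norm_r0X β hβ j p z hz)
  by_cases hp : p.Prime
  · refine (continuousOn_r0 β hβ j p).comp ?_ fun z hz => ?_
    · unfold X
      fun_prop
    · rw [mem_closedBall_zero_iff]
      exact norm_X p hp.one_le z hz
  · have : (fun z => r0 β j p (X p z)) = fun _ => 0 := by
      funext z
      unfold r0
      rw [if_neg hp]
    rw [this]
    exact continuousOn_const

include hβ in
/-- The logarithm of the Euler product in the half-plane. -/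
lemma hasSum_L (j : Fin n) (z : ℂ) (hz : 0 < z.re) :
    HasSum (fun p : Nat.Primes => LF (β j p) p (X p z))
      ((∑' p, ct (c0 β j) z p) + R0 β j z) := by
  have h1 := (summable_ct (c0 β j) (dd d) (norm_c0 β hβ j) z hz).hasSum
  have h2 : HasSum (fun p => r0 β j p (X p z)) (R0 β j z) :=
    (Summable.of_norm_bounded (summable_rb j) fun p => norm_r0X β hβ j p z hz.le).hasSum
  have h3 := h1.add h2
  have h4 : (fun p => ct (c0 β j) z p + r0 β j p (X p z)) =
      fun p : ℕ => if p.Prime then LF (β j p) p (X p z) else 0 := by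
    funext p
    unfold ct r0 X
    split_ifs with hp
    · unfold RF c0
      ring
    · rw [add_zero]
  rw [h4] at h3
  have h5 : Function.support (fun p : ℕ => if p.Prime then LF (β j p) p (X p z) else 0) ⊆
      {p : ℕ | p.Prime} := by
    intro p hp
    by_contra h
    apply hp
    have h' : ¬ p.Prime := h
    simp only [if_neg h']
  have h6 := (hasSum_subtype_iff_of_support_subset h5).2 h3
  have h7 : ((fun p : ℕ => if p.Prime then LF (β j p) p (X p z) else 0) ∘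
      ((↑) : {p : ℕ | p.Prime} → ℕ)) = fun p : {p : ℕ | p.Prime} => LF (β j p) p (X p z) := by
    funext p
    have h' : (p : ℕ).Prime := p.2
    show (if (p : ℕ).Prime then LF (β j p) p (X p z) else 0) = _
    rw [if_pos h']
  rw [h7] at h6
  exact h6

/-- The local functions are small. -/
lemma norm_LF {e : ℕ} (b : Fin e → ℂ) (p : ℕ) (hp : p.Prime) (hb : ∀ i, ‖b i‖ ≤ 1) (x : ℂ)
    (hx : ‖x‖ ≤ 1) : ‖LF b p x‖ ≤ 2 * e / p := by
  have hp0 : (0 : ℝ) < p := by exact_mod_cast hp.pos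
  have hp1 : (1 : ℝ) ≤ p := by exact_mod_cast hp.one_le
  have h1 := norm_RF b p hp hb x hx
  have h2 : LF b p x = (∑ i, b i) / p * x + RF b p x := by
    unfold RF
    ring
  have h3 : ‖∑ i, b i‖ ≤ e := by
    calc ‖∑ i, b i‖ ≤ ∑ _i : Fin e, (1 : ℝ) := norm_sum_le_of_le _ fun i _ => hb i
      _ = e := by simp
  have h4 : ‖(∑ i, b i) / p * x‖ ≤ e / p := by
    rw [norm_mul, norm_div, Complex.norm_natCast]
    calc ‖∑ i, b i‖ / p * ‖x‖ ≤ e / p * 1 := by gcongr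
      _ = _ := mul_one _
  have h5 : (e : ℝ) * (1 / p) ^ 2 ≤ e / p := by
    rw [one_div, inv_pow, ← div_eq_mul_inv]
    refine div_le_div_of_nonneg_left (Nat.cast_nonneg _) hp0 ?_
    nlinarith
  rw [h2]
  refine (norm_add_le _ _).trans ?_
  have h6 : 2 * (e : ℝ) / p = e / p + e / p := by ring
  linarith

include hβ in
lemma norm_gpv (p : ℕ) (hp : p.Prime) (θ : ℝ) :
    ‖gpv (cc β h) (rv β h) p (ee 1 θ)‖ ≤ (2 * n * dd d : ℝ) / p := by
  refine (norm_le_sum _).trans ?_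
  have h1 : ∀ j, ‖(gpv (cc β h) (rv β h) p (ee 1 θ)) j‖ ≤ 2 * dd d / p := by
    intro j
    show ‖gp (cc β h j) (rv β h j) p (ee 1 θ)‖ ≤ _
    rw [gp_LF β h j p hp]
    refine (norm_LF (β j p) p hp (hβ j p) _ (by rw [norm_mul, norm_ph, norm_ee, one_mul])).trans ?_
    have : (d j : ℝ) ≤ dd d := by exact_mod_cast d_le j
    gcongr
  refine (sum_le_sum fun j _ => h1 j).trans (le_of_eq ?_)
  rw [sum_const, card_univ, Fintype.card_fin, nsmul_eq_mul]
  ring

include hβ in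
/-- The local functions have mean zero. -/
lemma int_LF (j : Fin n) (p : ℕ) (hp : p.Prime) :
    ∫ θ in (0 : ℝ)..(2 * Real.pi), LF (β j p) p (ph p (h j) * ee 1 θ) = 0 := by
  have h1 := diffContOnCl_LF (β j p) p hp (hβ j p) (ph p (h j)) (norm_ph p (h j))
  have h2 := DiffContOnCl.circleAverage (c := (0 : ℂ)) (R := 1) (by rwa [abs_one])
  unfold Real.circleAverage at h2
  rw [mul_zero, LF_zero] at h2
  have h3 : ∀ θ : ℝ, circleMap 0 1 θ = ee 1 θ := by
    intro θ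
    unfold ee circleMap
    simp
  simp only [h3] at h2
  have h4 : (2 * Real.pi)⁻¹ ≠ 0 := inv_ne_zero two_pi_pos'.ne'
  exact (smul_eq_zero.1 h2).resolve_left h4

include hβ in
lemma int_inner (p : ℕ) (hp : p.Prime) (t : EE n) :
    ∫ θ in (0 : ℝ)..(2 * Real.pi), (inner ℝ (gpv (cc β h) (rv β h) p (ee 1 θ)) t : ℝ) = 0 := by
  have hc : ∀ j, Continuous fun θ => LF (β j p) p (ph p (h j) * ee 1 θ) := by
    intro j
    have h1 : Continuous fun θ => ph p (h j) * ee 1 θ := continuous_const.mul (continuous_ee 1)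
    exact (continuousOn_LF (β j p) p hp (hβ j p)).comp_continuous h1 fun θ => by
      rw [mem_closedBall_zero_iff, norm_mul, norm_ph, norm_ee, one_mul]
  have h1 : ∀ θ, (inner ℝ (gpv (cc β h) (rv β h) p (ee 1 θ)) t : ℝ) =
      (∑ j, conj (t j) * LF (β j p) p (ph p (h j) * ee 1 θ)).re := by
    intro θ
    rw [inner_eq]
    congr 1
    refine sum_congr rfl fun j _ => ?_
    rw [← gp_LF β h j p hp]
    rfl
  simp only [h1]
  have hii : ∀ j ∈ (univ : Finset (Fin n)), IntervalIntegrable (fun θ => conj (t j) *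
      LF (β j p) p (ph p (h j) * ee 1 θ)) volume 0 (2 * Real.pi) := fun j _ =>
    (continuous_const.mul (hc j)).intervalIntegrable _ _
  have h2 : ∫ θ in (0 : ℝ)..(2 * Real.pi), (∑ j, conj (t j) *
      LF (β j p) p (ph p (h j) * ee 1 θ)) = 0 := by
    rw [intervalIntegral.integral_finsetSum hii]
    refine sum_eq_zero fun j _ => ?_
    rw [intervalIntegral.integral_const_mul, int_LF β h hβ j p hp, mul_zero]
  have h3 := Complex.reCLM.intervalIntegral_comp_comm (μ := volume) (a := 0) (b := 2 * Real.pi)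
    (f := fun θ => ∑ j, conj (t j) * LF (β j p) p (ph p (h j) * ee 1 θ))
    (Continuous.intervalIntegrable (continuous_finsetSum _ fun j _ =>
      continuous_const.mul (hc j)) _ _)
  rw [h2] at h3
  simpa using h3

end

section
variable {n : ℕ} (c : Fin n → ℕ → ℂ) (D : ℝ) (r : Fin n → ℕ → ℂ → ℂ) (ρ : Fin n → ℕ → ℝ)
  (hc : ∀ j p, ‖c j p‖ ≤ D) (hρ : ∀ j, Summable (ρ j))
  (hr : ∀ j p x, ‖x‖ = 1 → ‖r j p x‖ ≤ ρ j p)
  (hrc : ∀ j p, ContinuousOn (r j p) (Metric.sphere 0 1))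
  (hr0 : ∀ j p, ¬ p.Prime → ∀ x, r j p x = 0)

include hc hρ hr hrc hr0 in
/-- **The limit law and its smooth density, abstract form, with the characteristic function.** -/
theorem lawv2 (hD : 0 ≤ D) : ∃ ν : ProbabilityMeasure (EE n),
    (∀ F : EE n →ᵇ ℝ, Tendsto (mn fun τ => F (bvv c r τ)) UW
      (𝓝 (∫ w, F w ∂(ν : Measure (EE n))))) ∧
    (∀ t, Tendsto (fun J => afv c r (NN 3 J) t) atTop (𝓝 (charFun (ν : Measure (EE n)) t))) ∧
    ∀ (m p₀ : ℕ) (P : ℕ → Fin n → Polynomial ℂ),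
      (∀ p, p.Prime → p₀ ≤ p → LocV c r m (P p) p) → NonDeg P →
      ∃ g : EE n → ℝ, ContDiff ℝ ∞ g ∧ (∀ w, 0 ≤ g w) ∧ Integrable g ∧ ∫ w, g w = 1 ∧
        (ν : Measure (EE n)) = volume.withDensity fun w => ENNReal.ofReal (g w) := by
  obtain ⟨φ, h1, h2, h3⟩ := exists_phiv c D r ρ hc hρ hr hrc hr0 hD
  obtain ⟨ν, h4, h5⟩ := limit_law (bvv c r) (aem_bvv c D r ρ hc hρ hr hrc) φ h3 h1
  refine ⟨ν, h5, fun t => by rw [h4]; exact h2 t, fun m p₀ P hloc hnd => ?_⟩
  refine smooth_density (ν : Measure (EE n)) fun j => ?_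
  obtain ⟨C, hC0, hC⟩ := phiv_decay c r hrc m p₀ P hloc hnd φ h2 (j + (2 * n + 1))
  have h6 : Integrable fun ξ : EE n => C * (1 + ‖ξ‖) ^ (-((2 * n + 1 : ℕ) : ℝ)) := by
    refine Integrable.const_mul ?_ C
    refine integrable_one_add_norm ?_
    have h7 : Module.finrank ℝ (EE n) = 2 * n := by
      rw [← Module.finrank_mul_finrank ℝ ℂ]
      simp
    rw [h7]
    push_cast
    linarith
  refine h6.mono' ?_ (Eventually.of_forall fun ξ => ?_)
  · exact ((continuous_norm.pow j).mul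
      (continuous_Ph (ν : Measure (EE n))).norm).aestronglyMeasurable
  · rw [Real.norm_of_nonneg (by positivity)]
    unfold Ph
    rw [h4]
    set t : EE n := (2 * Real.pi) • ξ with ht
    have h7 := hC t
    have h8 : ‖ξ‖ ≤ ‖t‖ := by
      rw [ht, norm_smul, Real.norm_of_nonneg two_pi_pos'.le]
      have := Real.pi_gt_three
      nlinarith [norm_nonneg ξ]
    have h9 : 0 < 1 + ‖ξ‖ := by positivity
    have h10 : (1 + ‖ξ‖) ^ (-((2 * n + 1 : ℕ) : ℝ)) = ((1 + ‖ξ‖) ^ (2 * n + 1))⁻¹ := by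
      rw [Real.rpow_neg h9.le, Real.rpow_natCast]
    rw [h10, ← div_eq_mul_inv, le_div_iff₀ (by positivity)]
    calc ‖ξ‖ ^ j * ‖φ t‖ * (1 + ‖ξ‖) ^ (2 * n + 1) ≤
          (1 + ‖t‖) ^ j * ‖φ t‖ * (1 + ‖t‖) ^ (2 * n + 1) := by
          gcongr
          linarith
      _ = (1 + ‖t‖) ^ (j + (2 * n + 1)) * ‖φ t‖ := by ring
      _ ≤ C := h7

end

section
variable {n : ℕ} {d : Fin n → ℕ} (β : ∀ j, ℕ → Fin (d j) → ℂ) (h : Fin n → ℝ)
  (hβ : ∀ j p i, ‖β j p i‖ ≤ 1)

/-- The vector of the boundary values. -/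
noncomputable def lamv (τ : ℝ) : EE n := bvv (cc β h) (rv β h) τ

include hβ in
lemma aem_lamv : AEMeasurable (lamv β h) :=
  aem_bvv (cc β h) (dd d) (rv β h) (rb d) (norm_cc β h hβ) (fun j => summable_rb j)
    (norm_rv β h hβ) (continuousOn_rv β h hβ)

include hβ in
/-- **The joint law.** -/
theorem law_abs : ∃ ν : ProbabilityMeasure (EE n),
    (∀ F : EE n →ᵇ ℝ, Tendsto (mn fun τ => F (lamv β h τ)) UW
      (𝓝 (∫ w, F w ∂(ν : Measure (EE n))))) ∧
    (∀ t, HasProd (fun p : Nat.Primes => lcv (cc β h) (rv β h) p t)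
      (charFun (ν : Measure (EE n)) t)) ∧
    (∀ C : ℝ, Integrable (fun w => Real.exp (C * ‖w‖)) (ν : Measure (EE n))) ∧
    (Ind β h → ∃ g : EE n → ℝ, ContDiff ℝ ∞ g ∧ (∀ w, 0 ≤ g w) ∧
        (ν : Measure (EE n)) = volume.withDensity fun w => ENNReal.ofReal (g w)) := by
  obtain ⟨ν, h1, h2, h3⟩ := lawv2 (cc β h) (dd d) (rv β h) (rb d) (norm_cc β h hβ)
    (fun j => summable_rb j) (norm_rv β h hβ) (continuousOn_rv β h hβ) (rv_zero β h)
    (Nat.cast_nonneg _)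
  have hG0 : (0 : ℝ) ≤ 2 * n * dd d := by positivity
  refine ⟨ν, h1, fun t => ?_, fun C => ?_, fun hI => ?_⟩
  · exact hasProd_Lc (cc β h) (rv β h) (continuousOn_rv β h hβ) (2 * n * dd d)
      (norm_gpv β h hβ) (int_inner β h hβ) _ h2 t
  · exact exp_norm (ν : Measure (EE n)) (fun t => exp_moment (cc β h) (rv β h)
      (continuousOn_rv β h hβ) (rv_zero β h) (2 * n * dd d) (norm_gpv β h hβ)
      (int_inner β h hβ) hG0 ν h2 t) C
  · obtain ⟨p₀, hloc⟩ := locV β h hβ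
    obtain ⟨g, hg1, hg2, -, -, hg5⟩ := h3 (dd d) p₀ (PJ β h) hloc (nonDeg β h hβ hI p₀ hloc)
    exact ⟨g, hg1, hg2, hg5⟩

/-- The exceptional set. -/
noncomputable def NN0 : Set ℝ := exc (c0 β) h

include hβ in
lemma dimH_NN0 : dimH (NN0 β h) = 0 := dimH_exc _ (dd d) (norm_c0 β hβ) h

lemma lim_tw (c : ℕ → ℂ) (h τ : ℝ) (hτ : τ + h ∉ divSet c) :
    lm (Pool.Agent.W350.Edge.tw c h) τ = lm c (τ + h) := by
  have h1 := lm_spec hτ
  have h2 : τ ∉ divSet (Pool.Agent.W350.Edge.tw c h) := by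
    intro h3
    apply h3
    exact ⟨_, by rw [ps_tw]; exact h1⟩
  have h3 := lm_spec h2
  rw [ps_tw] at h3
  exact tendsto_nhds_unique h3 h1

include hβ in
/-- The angular limits. -/
lemma lamv_lim (τ : ℝ) (hτ : τ ∉ NN0 β h) (j : Fin n) (σ₀ : ℝ) (Λ : ℂ → ℂ)
    (hΛ : ∀ s, σ₀ < s.re → Λ s = (∑' p, ct (c0 β j) (s - σ₀) p) + R0 β j (s - σ₀)) (C : ℝ) :
    Tendsto Λ (𝓝[{s : ℂ | σ₀ < s.re ∧ ‖s - ((σ₀ : ℂ) + ((τ + h j : ℝ) : ℂ) * Complex.I)‖ ≤
      C * (s.re - σ₀)}] ((σ₀ : ℂ) + ((τ + h j : ℝ) : ℂ) * Complex.I)) (𝓝 (lamv β h τ j)) := by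
  have hτj : τ + h j ∉ divSet (c0 β j) := by
    intro h1
    exact hτ (Set.mem_iUnion.2 ⟨j, h1⟩)
  have h1 := ang_lim (c0 β j) (dd d) (norm_c0 β hβ j) (R0 β j) (continuousOn_R0 β hβ j)
    σ₀ Λ hΛ (τ + h j) hτj C
  have h2 : lamv β h τ j = lm (c0 β j) (τ + h j) + R0 β j (((τ + h j : ℝ) : ℂ) * Complex.I) := by
    show bv (cc β h j) (rv β h j) τ = _
    unfold bv cc R0
    rw [lim_tw _ _ _ hτj]
    congr 1
    refine tsum_congr fun p => ?_
    unfold rv
    rw [X_ph, ph_add, mul_comm]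
  rw [h2]
  exact h1

end

end Pool.Agent.N903.LG
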