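import Pool.Agent.N903.LG.Lim
import Pool.Agent.N903.LG.Defs
import Pool.Agent.Helper605.TraceR

/-!
# Euler products of matrices
-/

set_option autoImplicit false
set_option linter.unusedSectionVars false

namespace Pool.Agent.N903.LG

open Finset Filter Topology MeasureTheory Pool.Agent.W350.Edge
  Pool.Agent.N903.EL Pool.Agent.N903.EV
open Pool.Agent.N903.ED (ph norm_ph ct)
open scoped ComplexConjugate ContDiff BoundedContinuousFunction

lemma exists_fin {k : ℕ} {s : Multiset ℂ} (h : s.card = k) :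
    ∃ l : Fin k → ℂ, (Finset.univ : Finset (Fin k)).val.map l = s := by
  obtain ⟨L, rfl⟩ := Quot.exists_rep s
  have hL : L.length = k := h
  subst hL
  refine ⟨L.get, ?_⟩
  rw [Fin.univ_val_map, List.ofFn_get]
  rfl

/-- **Eigenvalues.** -/
theorem eigen {k : ℕ} (M : Matrix (Fin k) (Fin k) ℂ) :
    ∃ l : Fin k → ℂ, (∀ x : ℂ, (1 - x • M).det = ∏ j, (1 - l j * x)) ∧
      (∀ n : ℕ, (M ^ n).trace = ∑ j, l j ^ n) ∧ (∀ j, M.charpoly.IsRoot (l j)) ∧
      M.det = ∏ j, l j := by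
  have hne : M.charpoly ≠ 0 := (Matrix.charpoly_monic M).ne_zero
  have hsp := IsAlgClosed.splits M.charpoly
  have hcard : M.charpoly.roots.card = k := by
    rw [← hsp.natDegree_eq_card_roots, Matrix.charpoly_natDegree_eq_dim, Fintype.card_fin]
  obtain ⟨l, hl⟩ := exists_fin hcard
  have hev : ∀ t : ℂ, M.charpoly.eval t = ∏ j, (t - l j) := by
    intro t
    have h1 := hsp.eq_prod_roots
    rw [(Matrix.charpoly_monic M).leadingCoeff, Polynomial.C_1, one_mul] at h1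
    conv_lhs => rw [h1]
    rw [Polynomial.eval_multiset_prod, Multiset.map_map, ← hl, Multiset.map_map,
      Finset.prod_eq_multiset_prod]
    congr 1
    refine Multiset.map_congr rfl fun j _ => ?_
    simp
  refine ⟨l, fun x => ?_, fun n => ?_, fun j => ?_, ?_⟩
  · rcases eq_or_ne x 0 with rfl | hx
    · simp
    · have h1 : (1 - x • M) = x • (Matrix.scalar (Fin k) x⁻¹ - M) := by
        rw [smul_sub]
        congr 1
        rw [Matrix.scalar_apply, ← Matrix.smul_one_eq_diagonal, smul_smul, mul_inv_cancel₀ hx,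
          one_smul]
      have h2 : x ^ k = ∏ _j : Fin k, x := by simp
      rw [h1, Matrix.det_smul, ← Matrix.eval_charpoly, hev, Fintype.card_fin, h2,
        ← Finset.prod_mul_distrib]
      refine Finset.prod_congr rfl fun j _ => ?_
      field_simp
  · rw [Pool.Agent.Helper605.trace_pow_roots, ← hl, Multiset.map_map]
    rfl
  · have h1 : l j ∈ M.charpoly.roots := by
      rw [← hl]
      exact Multiset.mem_map_of_mem l (Finset.mem_univ_val j)
    exact (Polynomial.mem_roots hne).1 h1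
  · rw [Matrix.det_eq_prod_roots_charpoly, ← hl, Finset.prod_eq_multiset_prod]

section
variable {G : Type} [Group G] {d : ℕ} (ρ : G →* Matrix.GeneralLinearGroup (Fin d) ℂ)
  (S : Finset Nat.Primes) (A : Nat.Primes → G) (k : ℝ)

/-- The eigenvalues. -/
noncomputable def ev (g : G) : Fin d → ℂ := (eigen (ρ g : Matrix (Fin d) (Fin d) ℂ)).choose

lemma ev_spec (g : G) : (∀ x : ℂ, (1 - x • (ρ g : Matrix (Fin d) (Fin d) ℂ)).det =
      ∏ j, (1 - ev ρ g j * x)) ∧
      (∀ n : ℕ, ((ρ g : Matrix (Fin d) (Fin d) ℂ) ^ n).trace = ∑ j, ev ρ g j ^ n) ∧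
      (∀ j, (ρ g : Matrix (Fin d) (Fin d) ℂ).charpoly.IsRoot (ev ρ g j)) ∧
      (ρ g : Matrix (Fin d) (Fin d) ℂ).det = ∏ j, ev ρ g j :=
  (eigen (ρ g : Matrix (Fin d) (Fin d) ℂ)).choose_spec

lemma character_pow (g : G) (n : ℕ) : character ρ (g ^ n) = ∑ j, ev ρ g j ^ n := by
  unfold character
  rw [map_pow, Units.val_pow_eq_pow_val]
  exact (ev_spec ρ g).2.1 n

lemma ev_ne (g : G) (j : Fin d) : ev ρ g j ≠ 0 := by
  intro h
  have h1 := (ev_spec ρ g).2.2.2
  rw [prod_eq_zero (mem_univ j) h] at h1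
  have h2 : IsUnit (ρ g : Matrix (Fin d) (Fin d) ℂ) := (ρ g).isUnit
  rw [Matrix.isUnit_iff_isUnit_det] at h2
  exact h2.ne_zero h1

open Classical in
/-- The normalised eigenvalues. -/
noncomputable def bet (p : ℕ) : Fin d → ℂ :=
  if hp : p.Prime then if (⟨p, hp⟩ : Nat.Primes) ∈ S then 0 else
    fun i => ev ρ (A ⟨p, hp⟩) i * (((p : ℝ) ^ (-k) : ℝ) : ℂ) else 0

lemma bet_mem (p : Nat.Primes) (hp : p ∈ S) : bet ρ S A k p = 0 := by
  unfold bet
  rw [dif_pos p.2]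
  exact if_pos hp

lemma bet_notMem (p : Nat.Primes) (hp : p ∉ S) :
    bet ρ S A k p = fun i => ev ρ (A p) i * ((((p : ℕ) : ℝ) ^ (-k) : ℝ) : ℂ) := by
  unfold bet
  rw [dif_pos p.2]
  exact if_neg hp

variable (hk : EigenvaluesAtMost ρ S A k)

include hk in
lemma norm_bet (p : ℕ) (i : Fin d) : ‖bet ρ S A k p i‖ ≤ 1 := by
  by_cases hp : p.Prime
  · by_cases hS : (⟨p, hp⟩ : Nat.Primes) ∈ S
    · have := bet_mem ρ S A k ⟨p, hp⟩ hS
      rw [show bet ρ S A k p = 0 from this]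
      simp
    · have := bet_notMem ρ S A k ⟨p, hp⟩ hS
      rw [show bet ρ S A k p = _ from this]
      have hp0 : (0 : ℝ) < p := by exact_mod_cast hp.pos
      have h1 := hk ⟨p, hp⟩ hS _ ((ev_spec ρ (A ⟨p, hp⟩)).2.2.1 i)
      rw [norm_mul, Complex.norm_real, Real.norm_of_nonneg (Real.rpow_nonneg hp0.le _)]
      have h2 : (0 : ℝ) < (p : ℝ) ^ (-k) := Real.rpow_pos_of_pos hp0 _
      calc ‖ev ρ (A ⟨p, hp⟩) i‖ * (p : ℝ) ^ (-k) ≤ (p : ℝ) ^ k * (p : ℝ) ^ (-k) :=
            mul_le_mul_of_nonneg_right h1 h2.le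
        _ = 1 := by rw [← Real.rpow_add hp0, add_neg_cancel, Real.rpow_zero]
  · unfold bet
    rw [dif_neg hp]
    simp

lemma LF_bet_mem (p : Nat.Primes) (hp : p ∈ S) (x : ℂ) : LF (bet ρ S A k p) p x = 0 := by
  unfold LF
  rw [bet_mem ρ S A k p hp]
  simp

include hk in
/-- The power series of the logarithm of a factor. -/
lemma logFactor_LF (p : Nat.Primes) (hp : p ∉ S) (x : ℂ) (hx : ‖x‖ ≤ 1) :
    logFactor ρ (A p) ((((p : ℕ) : ℝ) ^ (-k) : ℝ) * (x / (p : ℕ))) = LF (bet ρ S A k p) p x := by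
  have h1 := (hasSum_LF (bet ρ S A k p) p p.2 (norm_bet ρ S A k hk p) x hx).tsum_eq
  rw [← h1]
  unfold logFactor
  refine tsum_congr fun m => ?_
  rw [character_pow, bet_notMem ρ S A k p hp]
  simp only [mul_pow, ← sum_mul]
  ring

lemma cpow_eq (p : Nat.Primes) (z : ℂ) :
    ((p : ℕ) : ℂ) ^ (-((1 + k : ℝ) + z)) =
      (((((p : ℕ) : ℝ) ^ (-k) : ℝ)) : ℂ) * (X p z / (p : ℕ)) := by
  have hp0 : ((p : ℕ) : ℂ) ≠ 0 := by exact_mod_cast p.2.ne_zero
  have hpr : (0 : ℝ) < (p : ℕ) := by exact_mod_cast p.2.pos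
  have h1 : -(((1 + k : ℝ) : ℂ) + z) = ((-k : ℝ) : ℂ) + (-z + (-1)) := by
    push_cast
    ring
  rw [h1, Complex.cpow_add _ _ hp0, Complex.cpow_add _ _ hp0, Complex.cpow_neg_one,
    Complex.ofReal_cpow hpr.le]
  have h2 : ((p : ℕ) : ℂ) ^ (-z) = X p z := by
    unfold X
    rw [Complex.cpow_def_of_ne_zero hp0]
    congr 1
    rw [← Complex.natCast_log]
    ring
  rw [h2]
  push_cast
  ring

open Classical in
include hk in
lemma term_eq (p : Nat.Primes) (z : ℂ) (hz : 0 ≤ z.re) :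
    (if p ∈ S then 0 else logFactor ρ (A p) (((p : ℕ) : ℂ) ^ (-(((1 + k : ℝ) : ℂ) + z)))) =
      LF (bet ρ S A k p) p (X p z) := by
  split_ifs with hp
  · rw [LF_bet_mem ρ S A k p hp]
  · rw [cpow_eq, logFactor_LF ρ S A k hk p hp _ (norm_X p p.2.one_le z hz)]

include hk in
/-- The exponential of the logarithm of a factor. -/
lemma exp_LF (p : Nat.Primes) (hp : p ∉ S) (z : ℂ) (hz : 0 ≤ z.re) :
    Complex.exp (LF (bet ρ S A k p) p (X p z)) =
      ((1 - ((p : ℕ) : ℂ) ^ (-(((1 + k : ℝ) : ℂ) + z)) •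
        (ρ (A p) : Matrix (Fin d) (Fin d) ℂ)).det)⁻¹ := by
  rw [(ev_spec ρ (A p)).1, ← prod_inv_distrib]
  unfold LF
  rw [Complex.exp_sum]
  refine prod_congr rfl fun i _ => ?_
  have h1 := slit (bet ρ S A k p) p p.2 (norm_bet ρ S A k hk p) i (X p z)
    (norm_X p p.2.one_le z hz)
  rw [Complex.exp_neg, Complex.exp_log (Complex.slitPlane_ne_zero h1)]
  congr 1
  rw [bet_notMem ρ S A k p hp, cpow_eq]
  ring

end

section
variable {n : ℕ} {G : Fin n → Type} [∀ j, Group (G j)] {d : Fin n → ℕ}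
  (ρ : ∀ j, G j →* Matrix.GeneralLinearGroup (Fin (d j)) ℂ) (S : Fin n → Finset Nat.Primes)
  (A : ∀ j, Nat.Primes → G j) (k h : Fin n → ℝ)

/-- The system of normalised eigenvalues. -/
noncomputable def bs (j : Fin n) : ℕ → Fin (d j) → ℂ := bet (ρ j) (S j) (A j) (k j)

variable (hk : ∀ j, EigenvaluesAtMost (ρ j) (S j) (A j) (k j))

include hk in
lemma norm_bs (j : Fin n) (p : ℕ) (i : Fin (d j)) : ‖bs ρ S A k j p i‖ ≤ 1 :=
  norm_bet (ρ j) (S j) (A j) (k j) (hk j) p i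

include hk in
lemma logL_eq (j : Fin n) (s : ℂ) (hs : ((1 + k j : ℝ)) < s.re) :
    logL (ρ j) (S j) (A j) s = (∑' p, ct (c0 (bs ρ S A k) j) (s - (1 + k j : ℝ)) p) +
      R0 (bs ρ S A k) j (s - (1 + k j : ℝ)) := by
  have hz : 0 < (s - ((1 + k j : ℝ) : ℂ)).re := by
    rw [Complex.sub_re, Complex.ofReal_re]
    linarith
  rw [← (hasSum_L (bs ρ S A k) (norm_bs ρ S A k hk) j _ hz).tsum_eq]
  unfold logL
  refine tsum_congr fun p => ?_
  have h1 := term_eq (ρ j) (S j) (A j) (k j) (hk j) p _ hz.le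
  have h2 : (((1 + k j : ℝ)) : ℂ) + (s - ((1 + k j : ℝ) : ℂ)) = s := by ring
  rw [h2] at h1
  exact h1

open Classical in
include hk in
/-- The Euler product. -/
lemma hasProd_L (j : Fin n) (s : ℂ) (hs : ((1 + k j : ℝ)) < s.re) :
    HasProd (factor (ρ j) (S j) (A j) s) (Complex.exp (logL (ρ j) (S j) (A j) s)) := by
  have hz : 0 < (s - ((1 + k j : ℝ) : ℂ)).re := by
    rw [Complex.sub_re, Complex.ofReal_re]
    linarith
  have h0 := hasSum_L (bs ρ S A k) (norm_bs ρ S A k hk) j _ hz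
  rw [← logL_eq ρ S A k hk j s hs] at h0
  have h1 := h0.cexp
  have h2 : (((1 + k j : ℝ)) : ℂ) + (s - ((1 + k j : ℝ) : ℂ)) = s := by ring
  have h3 : (Complex.exp ∘ fun p : Nat.Primes => LF (bs ρ S A k j p) p
      (X p (s - ((1 + k j : ℝ) : ℂ)))) = fun p : Nat.Primes => if p ∈ S j then (1 : ℂ) else
      ((1 - ((p : ℕ) : ℂ) ^ (-s) • (ρ j (A j p) : Matrix (Fin (d j)) (Fin (d j)) ℂ)).det)⁻¹ := by
    funext p
    show Complex.exp (LF (bet (ρ j) (S j) (A j) (k j) p) p _) = _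
    split_ifs with hp
    · rw [LF_bet_mem _ _ _ _ p hp, Complex.exp_zero]
    · have h4 := exp_LF (ρ j) (S j) (A j) (k j) (hk j) p hp _ hz.le
      rw [h2] at h4
      exact h4
  rw [h3] at h1
  exact h1

/-! ### The random factors -/

open Classical in
include hk in
lemma lcv_eq (t : EE n) (p : Nat.Primes) :
    lcv (cc (bs ρ S A k) h) (rv (bs ρ S A k) h) p t = randomFactor ρ S A k h t p := by
  unfold lcv randomFactor cmean
  rw [Complex.real_smul]
  push_cast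
  congr 1
  refine intervalIntegral.integral_congr fun θ _ => ?_
  unfold chv
  rw [mul_comm Complex.I]
  congr 3
  rw [inner_eq]
  congr 1
  refine sum_congr rfl fun j _ => ?_
  congr 1
  show gp (cc (bs ρ S A k) h j) (rv (bs ρ S A k) h j) p (ee 1 θ) = _
  rw [gp_LF (bs ρ S A k) h j p p.2]
  show LF (bet (ρ j) (S j) (A j) (k j) p) p _ = _
  split_ifs with hp
  · rw [LF_bet_mem _ _ _ _ p hp]
  · rw [← logFactor_LF (ρ j) (S j) (A j) (k j) (hk j) p hp _
      (by rw [norm_mul, norm_ph, norm_ee, one_mul])]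
    congr 1
    unfold edgePoint
    rw [cpow_eq, X_ph]
    have h1 : ee 1 θ = Complex.exp (θ * Complex.I) := by
      unfold ee
      congr 1
      push_cast
      ring
    rw [h1]
    ring

/-! ### Independence -/

open Classical in
lemma cm_eq (p : Nat.Primes) (u : Fin n → ℂ) (m : ℕ) (hm : 1 ≤ m) :
    cm (bs ρ S A k) h p u m = ∑ j, u j * (if p ∈ S j then 0 else character (ρ j) (A j p ^ m)) *
      ((p : ℕ) : ℂ) ^ (-(m * edgePoint (k j) (h j))) := by
  unfold cm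
  refine sum_congr rfl fun j _ => ?_
  have hp0 : ((p : ℕ) : ℂ) ≠ 0 := by exact_mod_cast p.2.ne_zero
  have hpr : (0 : ℝ) < (p : ℕ) := by exact_mod_cast p.2.pos
  have h1 : ((p : ℕ) : ℂ) ^ (-(m * edgePoint (k j) (h j))) =
      (((((p : ℕ) : ℝ) ^ (-(k j)) : ℝ)) : ℂ) ^ m * ph p (h j) ^ m := by
    rw [← mul_pow, ← Pool.Agent.N903.ED.ph_eq p p.2.one_le, Complex.ofReal_cpow hpr.le,
      Complex.ofReal_natCast, ← Complex.cpow_add _ _ hp0, ← Complex.cpow_nat_mul]
    congr 1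
    unfold edgePoint
    push_cast
    ring
  show u j * (∑ i, bet (ρ j) (S j) (A j) (k j) p i ^ m) * ph p (h j) ^ m = _
  rw [h1]
  split_ifs with hp
  · rw [bet_mem _ _ _ _ p hp]
    simp only [Pi.zero_apply]
    rw [zero_pow (by omega)]
    simp
  · rw [bet_notMem _ _ _ _ p hp, character_pow]
    simp only [mul_pow, ← sum_mul]
    ring

lemma ind_of (hI : Independent ρ S A k h) : Ind (bs ρ S A k) h := by
  intro u hu x
  obtain ⟨p, hp, m, hm, hne⟩ := hI u hu x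
  refine ⟨p, hp, p.2, m, hm, ?_⟩
  rw [cm_eq ρ S A k h p u m hm]
  exact hne

lemma ind_to (hI : Ind (bs ρ S A k) h) : Independent ρ S A k h := by
  intro u hu x
  obtain ⟨p, hx, hp, m, hm, hne⟩ := hI u hu x
  refine ⟨⟨p, hp⟩, hx, m, hm, ?_⟩
  rw [← cm_eq ρ S A k h ⟨p, hp⟩ u m hm]
  exact hne

end

/-- One Euler product and distinct shifts are independent. -/
theorem independent_same {n d : ℕ} {G : Type} [Group G]
    (ρ : G →* Matrix.GeneralLinearGroup (Fin d) ℂ) (S : Finset Nat.Primes) (A : Nat.Primes → G)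
    (k : ℝ) (hd : d ≠ 0) (h : Fin n → ℝ) (hinj : Function.Injective h) :
    Independent (G := fun _ : Fin n => G) (d := fun _ => d) (fun _ => ρ) (fun _ => S) (fun _ => A)
      (fun _ => k) h := by
  refine ind_to _ _ _ _ _ ?_
  refine ind_same (bet ρ S A k) h hinj ((S.image fun p : Nat.Primes => (p : ℕ)).sup id + 1) ?_
  intro p hpx hp
  have hnot : (⟨p, hp⟩ : Nat.Primes) ∉ S := by
    intro hmem
    have h1 : p ∈ S.image fun p : Nat.Primes => (p : ℕ) := mem_image.2 ⟨⟨p, hp⟩, hmem, rfl⟩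
    have h2 : p ≤ (S.image fun p : Nat.Primes => (p : ℕ)).sup id := Finset.le_sup (f := id) h1
    omega
  refine ⟨⟨0, Nat.pos_of_ne_zero hd⟩, ?_⟩
  have h1 := bet_notMem ρ S A k ⟨p, hp⟩ hnot
  rw [show bet ρ S A k p = _ from h1]
  have hpr : (0 : ℝ) < (p : ℕ) := by exact_mod_cast hp.pos
  refine mul_ne_zero (ev_ne ρ _ _) ?_
  exact_mod_cast (Real.rpow_pos_of_pos hpr _).ne'

end Pool.Agent.N903.LG
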