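import Pool.Agent.N903.LG.Fac

/-!
# A system of Euler products
-/

set_option autoImplicit false
set_option linter.unusedSectionVars false

namespace Pool.Agent.N903.LG

open Finset Filter Topology MeasureTheory Pool.Agent.W350.Edge Pool.Agent.N903.ED
  Pool.Agent.N903.EL Pool.Agent.N903.EV
open scoped ComplexConjugate ContDiff BoundedContinuousFunction

section
variable {n : ℕ} {d : Fin n → ℕ} (β : ∀ j, ℕ → Fin (d j) → ℂ) (h : Fin n → ℝ)

/-- The coefficients without shifts. -/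
noncomputable def c0 (j : Fin n) (p : ℕ) : ℂ := ∑ i, β j p i

/-- The coefficients. -/
noncomputable def cc (j : Fin n) : ℕ → ℂ := Pool.Agent.W350.Edge.tw (c0 β j) (h j)

/-- The remainders without shifts. -/
noncomputable def r0 (j : Fin n) (p : ℕ) (x : ℂ) : ℂ := if p.Prime then RF (β j p) p x else 0

/-- The remainders. -/
noncomputable def rv (j : Fin n) (p : ℕ) (x : ℂ) : ℂ := r0 β j p (ph p (h j) * x)

/-- The polynomials. -/
noncomputable def PJ (p : ℕ) (j : Fin n) : Polynomial ℂ := rot (ph p (h j)) (PF (β j p) p)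

variable (d) in
/-- The bound of the coefficients and degrees. -/
def dd : ℕ := ∑ j, d j

variable (d) in
/-- The bound of the remainders. -/
noncomputable def rb (_ : Fin n) (p : ℕ) : ℝ := dd d * (1 / (p : ℝ)) ^ 2

lemma d_le (j : Fin n) : d j ≤ dd d :=
  Finset.single_le_sum (f := d) (fun _ _ => Nat.zero_le _) (Finset.mem_univ j)

lemma summable_rb (j : Fin n) : Summable (rb d j) := by
  unfold rb
  refine Summable.mul_left _ ?_
  simpa using Real.summable_one_div_nat_pow.2 (by norm_num : 1 < 2)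

variable (hβ : ∀ j p i, ‖β j p i‖ ≤ 1)

include hβ in
lemma norm_c0 (j : Fin n) (p : ℕ) : ‖c0 β j p‖ ≤ dd d := by
  unfold c0
  calc ‖∑ i, β j p i‖ ≤ ∑ _i : Fin (d j), (1 : ℝ) := norm_sum_le_of_le _ fun i _ => hβ j p i
    _ = d j := by simp
    _ ≤ dd d := by exact_mod_cast d_le j

include hβ in
lemma norm_cc (j : Fin n) (p : ℕ) : ‖cc β h j p‖ ≤ dd d := by
  unfold cc
  rw [norm_tw]
  exact norm_c0 β hβ j p

include hβ in
lemma norm_r0 (j : Fin n) (p : ℕ) (x : ℂ) (hx : ‖x‖ ≤ 1) : ‖r0 β j p x‖ ≤ rb d j p := by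
  unfold r0 rb
  split_ifs with hp
  · refine (norm_RF (β j p) p hp (hβ j p) x hx).trans ?_
    have : (d j : ℝ) ≤ dd d := by exact_mod_cast d_le j
    gcongr
  · rw [norm_zero]
    positivity

include hβ in
lemma norm_rv (j : Fin n) (p : ℕ) (x : ℂ) (hx : ‖x‖ = 1) : ‖rv β h j p x‖ ≤ rb d j p := by
  unfold rv
  refine norm_r0 β hβ j p _ ?_
  rw [norm_mul, norm_ph, hx, one_mul]

include hβ in
lemma continuousOn_r0 (j : Fin n) (p : ℕ) : ContinuousOn (r0 β j p) (Metric.closedBall 0 1) := by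
  unfold r0
  split_ifs with hp
  · unfold RF
    exact (continuousOn_LF (β j p) p hp (hβ j p)).sub (by fun_prop)
  · exact continuousOn_const

include hβ in
lemma continuousOn_rv (j : Fin n) (p : ℕ) : ContinuousOn (rv β h j p) (Metric.sphere 0 1) := by
  unfold rv
  refine (continuousOn_r0 β hβ j p).comp (by fun_prop) fun x hx => ?_
  rw [mem_sphere_zero_iff_norm] at hx
  rw [mem_closedBall_zero_iff, norm_mul, norm_ph, hx, one_mul]

lemma rv_zero (j : Fin n) (p : ℕ) (hp : ¬ p.Prime) (x : ℂ) : rv β h j p x = 0 := by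
  unfold rv r0
  rw [if_neg hp]

lemma gp_LF (j : Fin n) (p : ℕ) (hp : p.Prime) (x : ℂ) :
    gp (cc β h j) (rv β h j) p x = LF (β j p) p (ph p (h j) * x) := by
  unfold cc rv
  rw [gp_shift (c0 β j) (r0 β j) (h j) p x]
  unfold gp r0 c0 RF
  rw [if_pos hp, if_pos hp]
  ring

lemma exists_p1 (N : ℕ) : ∃ p₀ : ℕ, ∀ p : ℕ, p₀ ≤ p → ∀ k ≤ N, (1 + 3 / (p : ℝ)) ^ k ≤ 3 / 2 := by
  obtain ⟨p₀, h⟩ := exists_p0 N
  refine ⟨p₀, fun p hp k hk => le_trans ?_ (h p hp)⟩
  refine pow_le_pow_right₀ ?_ hk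
  have : (0 : ℝ) ≤ 3 / p := by positivity
  linarith

include hβ in
lemma locV_of (p : ℕ) (hp : p.Prime) (h3 : ∀ k ≤ dd d, (1 + 3 / (p : ℝ)) ^ k ≤ 3 / 2) :
    LocV (cc β h) (rv β h) (dd d) (PJ β h p) p := by
  refine ⟨fun j => ?_, fun j => ?_, fun j => ?_, fun j θ => ?_⟩
  · exact (natDegree_rot _ _).trans ((natDegree_PF (β j p) p).trans (d_le j))
  · unfold PJ
    rw [rot_coeff, PF_zero, pow_zero, mul_one]
  · refine le_trans (le_of_eq ?_) (PF_small (β j p) p (hβ j p) (dd d) (h3 _ (d_le j)))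
    refine sum_congr rfl fun k _ => ?_
    unfold PJ
    rw [rot_coeff, norm_mul, norm_pow, norm_ph, one_pow, mul_one]
  · simp only [gp_LF β h j p hp]
    unfold PJ
    rw [GG_rot]
    exact hasDerivAt_LF (β j p) p hp (hβ j p) _ (norm_ph p (h j)) θ

include hβ in
/-- The local data. -/
lemma locV : ∃ p₀ : ℕ, ∀ p, p.Prime → p₀ ≤ p →
    LocV (cc β h) (rv β h) (dd d) (PJ β h p) p := by
  obtain ⟨p₀, h0⟩ := exists_p1 (dd d)
  exact ⟨p₀, fun p hp hpp => locV_of β h hβ p hp (h0 p hpp)⟩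

/-! ### Relations -/

/-- The combination of the local functions. -/
noncomputable def FS (p : ℕ) (u : Fin n → ℂ) (x : ℂ) : ℂ :=
  ∑ j, u j * LF (β j p) p (ph p (h j) * x)

include hβ in
lemma diffContOnCl_FS (p : ℕ) (hp : p.Prime) (u : Fin n → ℂ) :
    DiffContOnCl ℂ (FS β h p u) (Metric.ball 0 1) := by
  have h1 := fun j : Fin n => diffContOnCl_LF (β j p) p hp (hβ j p) (ph p (h j)) (norm_ph p (h j))
  constructor
  · exact DifferentiableOn.fun_sum fun j _ => (h1 j).differentiableOn.const_mul (u j)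
  · exact continuousOn_finsetSum _ fun j _ => continuousOn_const.mul (h1 j).continuousOn

lemma FS_zero (p : ℕ) (u : Fin n → ℂ) : FS β h p u 0 = 0 := by
  unfold FS
  refine sum_eq_zero fun j _ => ?_
  rw [mul_zero, LF_zero, mul_zero]

include hβ in
lemma hasDerivAt_FS (p : ℕ) (hp : p.Prime) (u : Fin n → ℂ) (θ : ℝ) :
    HasDerivAt (fun θ => FS β h p u (ee 1 θ))
      (∑ j, u j * (Complex.I * EL.GG (PJ β h p j) (ee 1 θ))) θ := by
  refine HasDerivAt.fun_sum fun j _ => HasDerivAt.const_mul _ ?_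
  unfold PJ
  rw [GG_rot]
  exact hasDerivAt_LF (β j p) p hp (hβ j p) _ (norm_ph p (h j)) θ

include hβ in
/-- Degenerate directions give relations. -/
lemma relation (p : ℕ) (hp : p.Prime) (hloc : LocV (cc β h) (rv β h) (dd d) (PJ β h p) p)
    (u : Fin n → ℂ) (hre : ∀ θ, (Complex.I * ww (PJ β h p) u (ee 1 θ)).re = 0) (x : ℂ)
    (hx : ‖x‖ ≤ 1) : FS β h p (fun j => conj (u j)) x = 0 := by
  set f : ℂ → ℂ := FS β h p (fun j => conj (u j)) with hf
  have hw := ww_zero (PJ β h p) hloc.deg hloc.zero hloc.small u hre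
  have hder : ∀ θ : ℝ, HasDerivAt (fun θ => f (ee 1 θ)) 0 θ := by
    intro θ
    have h1 := hasDerivAt_FS β h hβ p hp (fun j => conj (u j)) θ
    have h2 : ∑ j, conj (u j) * (Complex.I * EL.GG (PJ β h p j) (ee 1 θ)) = 0 := by
      have h3 := hw θ
      unfold ww at h3
      rw [← mul_zero Complex.I, ← h3, mul_sum]
      exact sum_congr rfl fun j _ => by ring
    rw [h2] at h1
    exact h1
  have hconst : ∀ θ : ℝ, f (ee 1 θ) = f (ee 1 0) := fun θ =>
    is_const_of_deriv_eq_zero (f := fun θ => f (ee 1 θ))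
      (fun θ => (hder θ).differentiableAt) (fun θ => (hder θ).deriv) θ 0
  have hD : DiffContOnCl ℂ f (Metric.ball 0 1) := diffContOnCl_FS β h hβ p hp _
  have h1 : Set.EqOn f (fun _ => f (ee 1 0)) (closure (Metric.ball (0 : ℂ) 1)) := by
    refine Complex.eqOn_closure_of_eqOn_frontier Metric.isBounded_ball hD diffContOnCl_const ?_
    rw [frontier_ball (0 : ℂ) one_ne_zero]
    intro x hx
    obtain ⟨α, rfl⟩ := exists_ee x (mem_sphere_zero_iff_norm.1 hx)
    exact hconst α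
  rw [closure_ball (0 : ℂ) one_ne_zero] at h1
  have h2 : f 0 = 0 := FS_zero β h p _
  have h3 : f (ee 1 0) = 0 := by
    rw [← h2]
    exact (h1 (by simp)).symm
  have h5 := h1 (mem_closedBall_zero_iff.2 hx)
  rw [h3] at h5
  exact h5

include hβ in
/-- A relation gives one for the logarithmic derivatives. -/
lemma GG_zero (p : ℕ) (hp : p.Prime) (u : Fin n → ℂ) (hz : ∀ x : ℂ, ‖x‖ < 1 → FS β h p u x = 0)
    (θ : ℝ) : ∑ j, u j * EL.GG (PJ β h p j) (ee 1 θ) = 0 := by
  have hD := diffContOnCl_FS β h hβ p hp u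
  have hclosed : Set.EqOn (FS β h p u) (fun _ => 0) (Metric.closedBall (0 : ℂ) 1) := by
    have hball : Set.EqOn (FS β h p u) (fun _ => 0) (Metric.ball (0 : ℂ) 1) := fun y hy =>
      hz y (mem_ball_zero_iff.1 hy)
    refine hball.of_subset_closure ?_ continuousOn_const Metric.ball_subset_closedBall ?_
    · have := hD.continuousOn
      rwa [closure_ball (0 : ℂ) one_ne_zero] at this
    · rw [closure_ball (0 : ℂ) one_ne_zero]
  have h1 := hasDerivAt_FS β h hβ p hp u θ
  have h2 : (fun θ => FS β h p u (ee 1 θ)) = fun _ => 0 := by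
    funext θ
    exact hclosed (mem_closedBall_zero_iff.2 (norm_ee 1 θ).le)
  rw [h2] at h1
  have h3 := h1.unique (hasDerivAt_const θ (0 : ℂ))
  have h4 : Complex.I * ∑ j, u j * EL.GG (PJ β h p j) (ee 1 θ) = 0 := by
    rw [← h3, mul_sum]
    exact sum_congr rfl fun j _ => by ring
  exact (mul_eq_zero.1 h4).resolve_left Complex.I_ne_zero

include hβ in
/-- The first coefficient. -/
lemma coeff_one (p : ℕ) (hp : p.Prime) (u : Fin n → ℂ)
    (hz : ∀ x : ℂ, ‖x‖ < 1 → FS β h p u x = 0) : ∑ j, u j * c0 β j p * ph p (h j) = 0 := by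
  have h4 : HasDerivAt (FS β h p u) (∑ j, u j * ((∑ i, β j p i / p) * ph p (h j))) 0 := by
    unfold FS
    refine HasDerivAt.fun_sum fun j _ => HasDerivAt.const_mul _ ?_
    have h5 : HasDerivAt (fun x : ℂ => ph p (h j) * x) (ph p (h j)) 0 := by
      simpa using (hasDerivAt_id (0 : ℂ)).const_mul (ph p (h j))
    have h6 : HasDerivAt (LF (β j p) p) (∑ i, β j p i / p) (ph p (h j) * 0) := by
      rw [mul_zero]
      refine (hasDerivAt_LFc (β j p) p hp (hβ j p) 0 (by simp)).congr_deriv ?_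
      simp
    exact h6.comp 0 h5
  have h5 : HasDerivAt (FS β h p u) 0 0 := by
    refine (hasDerivAt_const (0 : ℂ) (0 : ℂ)).congr_of_eventuallyEq ?_
    filter_upwards [Metric.ball_mem_nhds (0 : ℂ) one_pos] with y hy
    exact hz y (mem_ball_zero_iff.1 hy)
  have h6 := h4.unique h5
  have hp0 : (p : ℂ) ≠ 0 := by exact_mod_cast hp.ne_zero
  have h9 : ∑ j, u j * c0 β j p * ph p (h j) =
      (p : ℂ) * ∑ j, u j * ((∑ i, β j p i / p) * ph p (h j)) := by
    rw [mul_sum]
    refine sum_congr rfl fun j _ => ?_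
    unfold c0
    rw [← sum_div]
    field_simp
  rw [h9, h6, mul_zero]

end

end Pool.Agent.N903.LG
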